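import Mathlib

/-!
The group algebra of a free group over `ZMod 3`, Fox derivatives (through two by two matrices) and
the filtration they define.
-/

set_option autoImplicit false
set_option linter.unusedSectionVars false

namespace Pool.Agent.Y62.CT

open FreeGroup (of)

variable {α : Type} [DecidableEq α]

/-- The group algebra over the field with three elements. -/
abbrev GA (α : Type) : Type := MonoidAlgebra (ZMod 3) (FreeGroup α)

/-- The embedding of the free group. -/
noncomputable def o : FreeGroup α →* GA α := MonoidAlgebra.of (ZMod 3) (FreeGroup α)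

omit [DecidableEq α] in
lemma ga_ind {p : GA α → Prop} (h1 : ∀ g, p (o g)) (h2 : ∀ x y, p x → p y → p (x + y))
    (h3 : ∀ (r : ZMod 3) x, p x → p (r • x)) (x : GA α) : p x :=
  MonoidAlgebra.induction_on x h1 h2 h3

/-- The augmentation. -/
noncomputable def aug : GA α →ₐ[ZMod 3] ZMod 3 := MonoidAlgebra.lift (ZMod 3) (ZMod 3) _ 1

omit [DecidableEq α] in
@[simp] lemma aug_o (g : FreeGroup α) : aug (o g) = 1 := by
  unfold aug o
  rw [MonoidAlgebra.lift_of]
  rfl

/-- The action of endomorphisms of the free group. -/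
noncomputable def act (ψ : FreeGroup α →* FreeGroup α) : GA α →ₐ[ZMod 3] GA α :=
  MonoidAlgebra.lift (ZMod 3) (GA α) _ (o.comp ψ)

omit [DecidableEq α] in
@[simp] lemma act_o (ψ : FreeGroup α →* FreeGroup α) (g : FreeGroup α) :
    act ψ (o g) = o (ψ g) := by
  unfold act
  exact MonoidAlgebra.lift_of _ _

omit [DecidableEq α] in
@[simp] lemma aug_act (ψ : FreeGroup α →* FreeGroup α) (x : GA α) : aug (act ψ x) = aug x := by
  induction x using ga_ind with
  | h1 g => simp
  | h2 x y hx hy => rw [map_add, map_add, map_add, hx, hy]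
  | h3 r x hx => rw [map_smul, map_smul, map_smul, hx]

omit [DecidableEq α] in
@[simp] lemma o_inv_mul (g : FreeGroup α) : o g⁻¹ * o g = 1 := by
  rw [← map_mul, inv_mul_cancel, map_one]

omit [DecidableEq α] in
@[simp] lemma o_mul_inv (g : FreeGroup α) : o g * o g⁻¹ = 1 := by
  rw [← map_mul, mul_inv_cancel, map_one]

/-- The matrix of a generator. -/
noncomputable def gu (l m : α) : (Matrix (Fin 2) (Fin 2) (GA α))ˣ where
  val := !![o (of m), if m = l then 1 else 0; 0, 1]
  inv := !![o (of m)⁻¹, - (o (of m)⁻¹ * if m = l then 1 else 0); 0, 1]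
  val_inv := by
    ext i j : 2
    fin_cases i <;> fin_cases j <;>
      simp [Matrix.mul_apply, Fin.sum_univ_two, mul_neg, ← mul_assoc, -map_inv]
  inv_val := by
    ext i j : 2
    fin_cases i <;> fin_cases j <;>
      simp [Matrix.mul_apply, Fin.sum_univ_two, mul_neg, ← mul_assoc, -map_inv]

/-- The matrix representation of the free group. -/
noncomputable def Th0 (l : α) : FreeGroup α →* (Matrix (Fin 2) (Fin 2) (GA α))ˣ :=
  FreeGroup.lift (gu l)

/-- The matrix representation of the group algebra. -/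
noncomputable def Th (l : α) : GA α →ₐ[ZMod 3] Matrix (Fin 2) (Fin 2) (GA α) :=
  MonoidAlgebra.lift (ZMod 3) (Matrix (Fin 2) (Fin 2) (GA α)) _
    ((Units.coeHom _).comp (Th0 l))

lemma Th_o (l : α) (g : FreeGroup α) : Th l (o g) = ((Th0 l g : (Matrix _ _ (GA α))ˣ) : Matrix _ _ (GA α)) := by
  unfold Th
  exact MonoidAlgebra.lift_of _ _

/-- The Fox derivative. -/
noncomputable def D (l : α) : GA α →ₗ[ZMod 3] GA α where
  toFun x := Th l x 0 1
  map_add' x y := by rw [map_add]; rfl
  map_smul' r x := by rw [map_smul]; rfl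

lemma D_def (l : α) (x : GA α) : D l x = Th l x 0 1 := rfl

lemma D_of (l m : α) : D l (o (of m)) = if m = l then 1 else 0 := by
  rw [D_def, Th_o]
  unfold Th0
  rw [FreeGroup.lift_apply_of]
  rfl

lemma Th_inv (l : α) (g : FreeGroup α) : Th l (o g⁻¹) * Th l (o g) = 1 := by
  rw [← map_mul, o_inv_mul, map_one]

lemma Th_row (l : α) (g : FreeGroup α) : Th l (o g) 1 0 = 0 ∧ Th l (o g) 1 1 = 1 ∧
    Th l (o g) 0 0 = o g := by
  induction g using FreeGroup.induction_on with
  | C1 =>
    rw [map_one, map_one]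
    simp
  | of x =>
    rw [Th_o]
    unfold Th0
    rw [FreeGroup.lift_apply_of]
    refine ⟨rfl, rfl, rfl⟩
  | inv_of x _ =>
    rw [Th_o]
    unfold Th0
    rw [map_inv, FreeGroup.lift_apply_of]
    refine ⟨rfl, rfl, rfl⟩
  | mul a b ha hb =>
    rw [map_mul, map_mul]
    simp only [Matrix.mul_apply, Fin.sum_univ_two, ha.1, ha.2.1, ha.2.2, hb.1, hb.2.1, hb.2.2]
    simp

lemma Th_row' (l : α) (x : GA α) : Th l x 1 0 = 0 ∧ Th l x 1 1 = algebraMap (ZMod 3) _ (aug x) ∧
    Th l x 0 0 = x := by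
  induction x using ga_ind with
  | h1 g =>
    obtain ⟨e1, e2, e3⟩ := Th_row l g
    refine ⟨e1, ?_, e3⟩
    rw [e2, aug_o, map_one]
  | h2 x y hx hy =>
    rw [map_add]
    refine ⟨?_, ?_, ?_⟩
    · rw [Matrix.add_apply, hx.1, hy.1, add_zero]
    · rw [Matrix.add_apply, hx.2.1, hy.2.1, map_add, map_add]
    · rw [Matrix.add_apply, hx.2.2, hy.2.2]
  | h3 r x hx =>
    rw [map_smul]
    refine ⟨?_, ?_, ?_⟩
    · rw [Matrix.smul_apply, hx.1, smul_zero]
    · rw [Matrix.smul_apply, hx.2.1, map_smul, Algebra.smul_def, smul_eq_mul, map_mul]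
    · rw [Matrix.smul_apply, hx.2.2]

lemma D_mul (l : α) (x y : GA α) : D l (x * y) = aug y • D l x + x * D l y := by
  rw [D_def, map_mul, Matrix.mul_apply, Fin.sum_univ_two, (Th_row' l x).2.2, (Th_row' l y).2.1,
    ← D_def, ← D_def, Algebra.smul_def, ← Algebra.commutes, add_comm]

@[simp] lemma D_one (l : α) : D l 1 = 0 := by
  rw [D_def, map_one]
  simp

lemma D_inv (l : α) (g : FreeGroup α) : D l (o g⁻¹) = - (o g⁻¹ * D l (o g)) := by
  have h := D_mul l (o g⁻¹) (o g)
  rw [o_inv_mul, D_one, aug_o, one_smul] at h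
  exact eq_neg_of_add_eq_zero_left h.symm

lemma D_mul_o (l : α) (g h : FreeGroup α) : D l (o (g * h)) = D l (o g) + o g * D l (o h) := by
  rw [map_mul, D_mul, aug_o, one_smul]

end Pool.Agent.Y62.CT
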