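import Pool.Agent.Y62.CT.Jac

/-!
The cubes of transvections are in `P0`; the value of the trace of the Jacobian on triple partial
conjugations; the coefficients of degree four are seen by matrices of size five.
-/

set_option autoImplicit false
set_option linter.unusedSectionVars false

namespace Pool.Agent.Y62.CT

open FreeGroup (of)

variable {α : Type} [DecidableEq α] [Fintype α]

lemma P1_of_gens {ψ : MulAut (FreeGroup α)} (h : ∀ m, o (ψ (of m)) - o (of m) ∈ NN α)
    (x : GA α) : ac ψ x - x ∈ NN α := by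
  induction x using ga_ind with
  | h1 g =>
    rw [ac_o]
    induction g using FreeGroup.induction_on with
    | C1 => rw [map_one, sub_self]; exact zero_mem _
    | of x => exact h x
    | inv_of x ih =>
      have e : o (ψ (of x)⁻¹) - o (of x)⁻¹ =
          - (o (ψ (of x))⁻¹ * (o (ψ (of x)) - o (of x)) * o (of x)⁻¹) := by
        have e1 : ψ (of x)⁻¹ = (ψ (of x))⁻¹ := map_inv ψ _
        rw [e1, mul_sub, o_inv_mul, sub_mul, one_mul, mul_assoc, o_mul_inv, mul_one]
        abel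
      rw [e]
      exact neg_mem (NN_mul_right (NN_mul_left (h x) _) _)
    | mul a b ha hb =>
      have e : o (ψ (a * b)) - o (a * b) =
          o (ψ a) * (o (ψ b) - o b) + (o (ψ a) - o a) * o b := by
        rw [map_mul, map_mul, map_mul, mul_sub, sub_mul]
        abel
      rw [e]
      exact add_mem (NN_mul_left hb _) (NN_mul_right ha _)
  | h2 x y hx hy =>
    have e : ac ψ (x + y) - (x + y) = (ac ψ x - x) + (ac ψ y - y) := by rw [map_add]; abel
    rw [e]
    exact add_mem hx hy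
  | h3 r x hx =>
    rw [map_smul, ← smul_sub]
    exact Submodule.smul_mem _ _ hx

lemma three_add (x : GA α) : x + x + x = 0 := by
  have e : x + x + x = (3 : ZMod 3) • x := by
    have : (3 : ZMod 3) = 1 + 1 + 1 := by norm_num
    rw [this, add_smul, add_smul, one_smul]
  rw [e, three_zero, zero_smul]

lemma c1_one (a : α) : c1 a (1 : GA α) = 0 := by rw [c1_def, D_one, map_zero]

lemma c1_osub (a m : α) : c1 a (o (of m) - 1) = if m = a then 1 else 0 := by
  rw [map_sub, c1_one, sub_zero, c1_def, D_of]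
  split_ifs
  · exact map_one _
  · exact map_zero _

lemma Fil11 {x y : GA α} (hx : x ∈ Fil α 1) (hy : y ∈ Fil α 1) : x * y ∈ Fil α 2 := Fil_mul hx hy

lemma Fil12 {x y : GA α} (hx : x ∈ Fil α 1) (hy : y ∈ Fil α 2) : x * y ∈ Fil α 3 := Fil_mul hx hy

lemma Fil21 {x y : GA α} (hx : x ∈ Fil α 2) (hy : y ∈ Fil α 1) : x * y ∈ Fil α 3 := Fil_mul hx hy

lemma sq_AA {Y : GA α} (hY : Y ∈ Fil α 1) : Y * Y ∈ AA α := by
  rw [mem_AA]
  refine ⟨Fil11 hY hY, fun a b => ?_⟩
  rw [c2_mul11 _ _ hY hY, c2_mul11 _ _ hY hY]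
  ring

lemma cube_NN {Y : GA α} (hY : Y ∈ Fil α 1) : Y * Y * Y ∈ NN α := by
  have h2 := Fil11 hY hY
  rw [mem_NN]
  refine ⟨Fil21 h2 hY, fun i j k => ?_⟩
  rw [lam_def, c3_mul21 _ _ _ h2 hY, c3_mul21 _ _ _ h2 hY, c3_mul21 _ _ _ h2 hY,
    c3_mul21 _ _ _ h2 hY, c2_mul11 _ _ hY hY, c2_mul11 _ _ hY hY, c2_mul11 _ _ hY hY,
    c2_mul11 _ _ hY hY]
  ring

lemma Ja_sub_apply (ψ : MulAut (FreeGroup α)) (m l : α) :
    (Ja ψ - 1) m l = D l (o (ψ (of m))) - D l (o (of m)) := by
  rw [Matrix.sub_apply, Ja_apply, D_of, Matrix.one_apply]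

lemma cube_mem_P0 {ψ : MulAut (FreeGroup α)} {i j : α} (hij : i ≠ j)
    (h1 : ψ (of i) = of i * of j * of j * of j) (h2 : ∀ k, k ≠ i → ψ (of k) = of k) :
    ψ ∈ P0 α := by
  have hY : o (of j) - 1 ∈ Fil α 1 := o_sub_one_mem _
  have ent : ∀ m l, (Ja ψ - 1) m l =
      if m = i ∧ j = l then o (of i) * ((o (of j) - 1) * (o (of j) - 1)) else 0 := by
    intro m l
    rw [Ja_sub_apply]
    by_cases hm : m = i
    · subst hm
      rw [h1, D_mul_o, D_mul_o, D_mul_o, D_of l j]
      by_cases hl : j = l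
      · rw [if_pos hl, if_pos ⟨rfl, hl⟩, map_mul o (of m * of j) (of j), map_mul o (of m) (of j)]
        have := three_add (o (of m) * o (of j))
        have e : D l (o (of m)) + o (of m) * 1 + o (of m) * o (of j) * 1 +
            o (of m) * o (of j) * o (of j) * 1 - D l (o (of m)) =
            o (of m) * ((o (of j) - 1) * (o (of j) - 1)) +
              (o (of m) * o (of j) + o (of m) * o (of j) + o (of m) * o (of j)) := by
          noncomm_ring
        rw [e, this, add_zero]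
      · rw [if_neg hl, if_neg (fun h => hl h.2)]
        simp
    · rw [h2 m hm, sub_self, if_neg (fun h => hm h.1)]
  refine ⟨⟨P1_of_gens fun m => ?_, fun m l => ?_⟩, ?_⟩
  · by_cases hm : m = i
    · subst hm
      have e : o (of m * of j * of j * of j) - o (of m) =
          o (of m) * ((o (of j) - 1) * (o (of j) - 1) * (o (of j) - 1)) +
            o (of m) * (o (of j) * o (of j) + o (of j) * o (of j) + o (of j) * o (of j)) -
            o (of m) * (o (of j) + o (of j) + o (of j)) := by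
        rw [map_mul, map_mul, map_mul]
        noncomm_ring
      rw [h1, e, three_add, three_add, mul_zero, add_zero, sub_zero]
      exact NN_mul_left (cube_NN hY) _
    · rw [h2 m hm, sub_self]; exact zero_mem _
  · rw [ent]
    split_ifs
    · exact AA_mul_left (sq_AA hY) _
    · exact zero_mem _
  · unfold tr Matrix.trace
    refine Submodule.sum_mem _ fun m _ => ?_
    rw [Matrix.diag_apply, ent, if_neg]
    · exact zero_mem _
    · rintro ⟨e1, e2⟩
      exact hij (e1.symm.trans e2.symm)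

section comm

lemma comm_sub_one (g h : FreeGroup α) : o (g * h * g⁻¹ * h⁻¹) - 1 =
    ((o g - 1) * (o h - 1) - (o h - 1) * (o g - 1)) * o (g⁻¹ * h⁻¹) := by
  have e1 : (o g - 1) * (o h - 1) - (o h - 1) * (o g - 1) = o (g * h) - o (h * g) := by
    rw [map_mul, map_mul]; noncomm_ring
  rw [e1, sub_mul, ← map_mul, ← map_mul]
  have e2 : h * g * (g⁻¹ * h⁻¹) = 1 := by group
  have e3 : g * h * (g⁻¹ * h⁻¹) = g * h * g⁻¹ * h⁻¹ := by group
  rw [e2, e3, map_one]

lemma comm_Fil2 (g h : FreeGroup α) : o (g * h * g⁻¹ * h⁻¹) - 1 ∈ Fil α 2 := by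
  rw [comm_sub_one]
  exact Fil_mul_right (sub_mem (Fil11 (o_sub_one_mem g) (o_sub_one_mem h))
    (Fil11 (o_sub_one_mem h) (o_sub_one_mem g))) _

lemma comm_c2 (g h : FreeGroup α) (b c : α) : c2 b c (o (g * h * g⁻¹ * h⁻¹) - 1) =
    c1 b (o g - 1) * c1 c (o h - 1) - c1 b (o h - 1) * c1 c (o g - 1) := by
  have k1 := Fil11 (o_sub_one_mem g) (o_sub_one_mem h)
  have k2 := Fil11 (o_sub_one_mem h) (o_sub_one_mem g)
  have k3 := sub_mem k1 k2
  rw [comm_sub_one, c2_mul, c1_of_mem b k3, aug_of_mem (Fil_anti (by norm_num) k3), aug_o,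
    map_sub, c2_mul11 _ _ (o_sub_one_mem g) (o_sub_one_mem h),
    c2_mul11 _ _ (o_sub_one_mem h) (o_sub_one_mem g)]
  ring

lemma comm_Fil3 (g h : FreeGroup α) (hh : o h - 1 ∈ Fil α 2) :
    o (g * h * g⁻¹ * h⁻¹) - 1 ∈ Fil α 3 := by
  rw [comm_sub_one]
  exact Fil_mul_right (sub_mem (Fil12 (o_sub_one_mem g) hh) (Fil21 hh (o_sub_one_mem g))) _

lemma comm_c3 (g h : FreeGroup α) (hh : o h - 1 ∈ Fil α 2) (a b c : α) :
    c3 a b c (o (g * h * g⁻¹ * h⁻¹) - 1) =
      c1 a (o g - 1) * c2 b c (o h - 1) - c2 a b (o h - 1) * c1 c (o g - 1) := by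
  have k1 := Fil12 (o_sub_one_mem g) hh
  have k2 := Fil21 hh (o_sub_one_mem g)
  rw [comm_sub_one, c3_right (sub_mem k1 k2), aug_o, mul_one, map_sub,
    c3_mul12 _ _ _ (o_sub_one_mem g) hh, c3_mul21 _ _ _ hh (o_sub_one_mem g)]

/-- The triple commutator. -/
def cm3 (i j k : α) : FreeGroup α :=
  of i * (of j * of k * (of j)⁻¹ * (of k)⁻¹) * (of i)⁻¹ * (of j * of k * (of j)⁻¹ * (of k)⁻¹)⁻¹

lemma cm3_Fil3 (i j k : α) : o (cm3 i j k) - 1 ∈ Fil α 3 := comm_Fil3 _ _ (comm_Fil2 _ _)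

lemma cm3_c3 (i j k a b c : α) : c3 a b c (o (cm3 i j k) - 1) =
    (if i = a then 1 else 0) * ((if j = b then 1 else 0) * (if k = c then 1 else 0) -
      (if k = b then 1 else 0) * (if j = c then 1 else 0)) -
    ((if j = a then 1 else 0) * (if k = b then 1 else 0) -
      (if k = a then 1 else 0) * (if j = b then 1 else 0)) * (if i = c then 1 else 0) := by
  unfold cm3
  rw [comm_c3 _ _ (comm_Fil2 _ _), comm_c2, comm_c2]
  simp only [c1_osub]

lemma D_comm (p : α) {g h : FreeGroup α} (hg : D p (o g) = 0) (hh : D p (o h) = 0) :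
    D p (o (g * h * g⁻¹ * h⁻¹)) = 0 := by
  rw [D_mul_o, D_mul_o, D_mul_o, D_inv, D_inv, hg, hh]
  simp

lemma cm3_D {p i j k : α} (h1 : p ≠ i) (h2 : p ≠ j) (h3 : p ≠ k) : D p (o (cm3 i j k)) = 0 := by
  have e : ∀ m : α, p ≠ m → D p (o (of m)) = 0 := fun m hm => by
    rw [D_of, if_neg (Ne.symm hm)]
  exact D_comm p (e i h1) (D_comm p (e j h2) (e k h3))

/-- The value of the functional on the triple commutator. -/
lemma lam_cm3 {n : ℕ} {i j k a b c : Fin n} (h1 : i < j) (h2 : j < k) (h3 : a < b) (h4 : b < c) :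
    lam a b c (o (cm3 i j k) - 1) = if i = a ∧ j = b ∧ k = c then 1 else 0 := by
  rw [lam_def, cm3_c3, cm3_c3, cm3_c3, cm3_c3]
  simp only [Fin.ext_iff]
  rw [Fin.lt_def] at h1 h2 h3 h4
  generalize (i : ℕ) = i' at *
  generalize (j : ℕ) = j' at *
  generalize (k : ℕ) = k' at *
  generalize (a : ℕ) = a' at *
  generalize (b : ℕ) = b' at *
  generalize (c : ℕ) = c' at *
  by_cases e1 : i' = a' <;> by_cases e2 : j' = b' <;> by_cases e3 : k' = c' <;>
    by_cases e4 : i' = b' <;> try (exfalso; omega)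
  all_goals
    by_cases e5 : i' = c' <;> try (exfalso; omega)
  all_goals
    by_cases e6 : j' = a' <;> try (exfalso; omega)
  all_goals
    by_cases e7 : j' = c' <;> try (exfalso; omega)
  all_goals
    by_cases e8 : k' = a' <;> try (exfalso; omega)
  all_goals
    by_cases e9 : k' = b' <;> try (exfalso; omega)
  all_goals
    split_ifs <;> first | decide | (exfalso; omega)

end comm

end Pool.Agent.Y62.CT
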