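import Pool.Agent.Y62.CT.Det

/-!
The trace of the Jacobian on triple partial conjugations; matrices of size five see the
coefficients of degree four.
-/

set_option autoImplicit false
set_option linter.unusedSectionVars false

namespace Pool.Agent.Y62.CT

open FreeGroup (of)

variable {α : Type} [DecidableEq α] [Fintype α]

lemma D_sub_one (l : α) (x : GA α) : D l (x - 1) = D l x := by rw [map_sub, D_one, sub_zero]

/-- Partial conjugations by elements of the third dimension subgroup. -/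
lemma tri_PP {ψ : MulAut (FreeGroup α)} {p : α} {w : FreeGroup α} (hW : o w - 1 ∈ Fil α 3)
    (hp : D p (o w) = 0) (h1 : ψ (of p) = w⁻¹ * of p * w) (h2 : ∀ k, k ≠ p → ψ (of k) = of k) :
    PP ψ ∧ tr ψ = o w⁻¹ - 1 := by
  have hinv : o w⁻¹ - 1 = - (o w⁻¹ * (o w - 1)) := by
    rw [mul_sub, o_inv_mul, mul_one]; abel
  have hW' : o w⁻¹ - 1 ∈ Fil α 3 := by
    rw [hinv]; exact neg_mem (Fil_mul_left hW _)
  have hD : ∀ l, D l (o w) ∈ Fil α 2 := by
    intro l
    have := (mem_Fil_succ.1 hW).2 l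
    rwa [D_sub_one] at this
  have ent : ∀ m l, (Ja ψ - 1) m l =
      if m = p then (if p = l then o w⁻¹ - 1 else 0) +
        o w⁻¹ * ((o (of p) - 1) * D l (o w)) else 0 := by
    intro m l
    rw [Ja_sub_apply]
    by_cases hm : m = p
    · subst hm
      rw [h1, D_mul_o, D_mul_o, D_inv, D_of l m, if_pos rfl, map_mul o w⁻¹ (of m)]
      by_cases hl : m = l
      · rw [if_pos hl, if_pos hl]; noncomm_ring
      · rw [if_neg hl, if_neg hl]; noncomm_ring
    · rw [h2 m hm, sub_self, if_neg hm]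
  refine ⟨⟨P1_of_gens fun m => ?_, fun m l => ?_⟩, ?_⟩
  · by_cases hm : m = p
    · subst hm
      have e : o (w⁻¹ * of m * w) - o (of m) =
          o w⁻¹ * ((o (of m) - 1) * (o w - 1) - (o w - 1) * (o (of m) - 1)) := by
        have e1 : o w⁻¹ * ((o (of m) - 1) * (o w - 1) - (o w - 1) * (o (of m) - 1)) =
            o w⁻¹ * o (of m) * o w - (o w⁻¹ * o w) * o (of m) := by noncomm_ring
        rw [e1, o_inv_mul, one_mul, map_mul, map_mul]
      rw [h1, e]
      refine Fil4_le_NN (Fil_mul_left (sub_mem ?_ ?_) _)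
      · exact Fil_mul (o_sub_one_mem _) hW
      · exact Fil_mul hW (o_sub_one_mem _)
    · rw [h2 m hm, sub_self]; exact zero_mem _
  · rw [ent]
    split_ifs
    · exact Fil3_le_AA (add_mem hW' (Fil_mul_left (Fil12 (o_sub_one_mem _) (hD l)) _))
    · exact Fil3_le_AA (add_mem (zero_mem _) (Fil_mul_left (Fil12 (o_sub_one_mem _) (hD l)) _))
    · exact zero_mem _
  · unfold tr Matrix.trace
    rw [Finset.sum_eq_single p]
    · rw [Matrix.diag_apply, ent, if_pos rfl, if_pos rfl, hp]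
      noncomm_ring
    · intro m _ hm
      rw [Matrix.diag_apply, ent, if_neg hm]
    · intro h; exact absurd (Finset.mem_univ p) h

lemma lam_inv {w : FreeGroup α} (hW : o w - 1 ∈ Fil α 3) (a b c : α) :
    lam a b c (o w⁻¹ - 1) = - lam a b c (o w - 1) := by
  have hinv : o w⁻¹ - 1 = - (o w⁻¹ * (o w - 1)) := by
    rw [mul_sub, o_inv_mul, mul_one]; abel
  rw [hinv, map_neg, lam_def, lam_def, c3_left hW, c3_left hW, c3_left hW, c3_left hW, aug_o]
  ring

/-- The functional of a triple on the automorphisms. -/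
noncomputable def Phi (a b c : α) (ψ : MulAut (FreeGroup α)) : ZMod 3 := lam a b c (tr ψ)

lemma Phi_mul (a b c : α) {ψ φ : MulAut (FreeGroup α)} (hψ : PP ψ) (hφ : PP φ) :
    Phi a b c (ψ * φ) = Phi a b c ψ + Phi a b c φ := by
  have h := (mem_NN.1 (PP_mul hψ hφ).2).2 a b c
  rw [map_sub, map_add, sub_eq_zero] at h
  exact h

lemma Phi_P0 (a b c : α) {ψ : MulAut (FreeGroup α)} (hψ : ψ ∈ P0 α) : Phi a b c ψ = 0 :=
  (mem_NN.1 hψ.2).2 a b c

lemma P0_le_PP {ψ : MulAut (FreeGroup α)} (hψ : ψ ∈ P0 α) : PP ψ := hψ.1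

lemma Phi_tri {n : ℕ} {ψ : MulAut (FreeGroup (Fin n))} {p i j k a b c : Fin n} (g1 : p ≠ i)
    (g2 : p ≠ j) (g3 : p ≠ k) (h1 : i < j) (h2 : j < k) (h3 : a < b) (h4 : b < c)
    (k1 : ψ (of p) = (cm3 i j k)⁻¹ * of p * cm3 i j k) (k2 : ∀ l, l ≠ p → ψ (of l) = of l) :
    PP ψ ∧ Phi a b c ψ = if i = a ∧ j = b ∧ k = c then -1 else 0 := by
  obtain ⟨e1, e2⟩ := tri_PP (cm3_Fil3 i j k) (cm3_D g1 g2 g3) k1 k2
  refine ⟨e1, ?_⟩
  unfold Phi
  rw [e2, lam_inv (cm3_Fil3 i j k), lam_cm3 h1 h2 h3 h4]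
  split_ifs
  · rfl
  · exact neg_zero

/-- The matrix of coefficients of four consecutive letters. -/
noncomputable def M5 (a b c d : α) (x : GA α) : Matrix (Fin 5) (Fin 5) (ZMod 3) :=
  !![aug x, c1 a x, c2 a b x, c3 a b c x, c4 a b c d x;
     0, aug x, c1 b x, c2 b c x, c3 b c d x;
     0, 0, aug x, c1 c x, c2 c d x;
     0, 0, 0, aug x, c1 d x;
     0, 0, 0, 0, aug x]

lemma M5_one (a b c d : α) : M5 a b c d (1 : GA α) = 1 := by
  have h1 : ∀ a, c1 a (1 : GA α) = 0 := c1_one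
  have h2 : ∀ a b, c2 a b (1 : GA α) = 0 := fun a b => by rw [c2_def, D_one, map_zero]
  have h3 : ∀ a b c, c3 a b c (1 : GA α) = 0 := fun a b c => by rw [c3_def, D_one, map_zero]
  have h4 : ∀ a b c d, c4 a b c d (1 : GA α) = 0 := fun a b c d => by
    rw [c4_def, D_one, map_zero]
  unfold M5
  rw [h1, h1, h1, h1, h2, h2, h2, h3, h3, h4, map_one]
  decide

lemma M5_mul (a b c d : α) (x y : GA α) : M5 a b c d (x * y) = M5 a b c d x * M5 a b c d y := by
  unfold M5
  ext i j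
  rw [Matrix.mul_apply, Fin.sum_univ_five]
  fin_cases i <;> fin_cases j <;>
    simp [c1_mul, c2_mul, c3_mul, c4_mul] <;> ring

/-- The representation of the free group by matrices of size five. -/
noncomputable def R5 (a b c d : α) : FreeGroup α →* Matrix.GeneralLinearGroup (Fin 5) (ZMod 3) :=
  MonoidHom.toHomUnits
    { toFun := fun g => M5 a b c d (o g)
      map_one' := by rw [map_one, M5_one]
      map_mul' := fun g h => by rw [map_mul, M5_mul] }

lemma R5_apply (a b c d : α) (g : FreeGroup α) :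
    ((R5 a b c d g : Matrix.GeneralLinearGroup (Fin 5) (ZMod 3)) :
      Matrix (Fin 5) (Fin 5) (ZMod 3)) = M5 a b c d (o g) := rfl

lemma c4_eq {a b c d : α} {g h : FreeGroup α} (e : R5 a b c d g = R5 a b c d h) :
    c4 a b c d (o g) = c4 a b c d (o h) := by
  have h1 := congrArg (fun X : Matrix.GeneralLinearGroup (Fin 5) (ZMod 3) =>
    (X : Matrix (Fin 5) (Fin 5) (ZMod 3)) 0 4) e
  exact h1

/-- Automorphisms acting trivially on all homomorphisms to `GL 5 (ZMod 3)`. -/
lemma Phi_cong (a b c : α) {ψ : MulAut (FreeGroup α)}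
    (h : ∀ (f : FreeGroup α →* Matrix.GeneralLinearGroup (Fin 5) (ZMod 3)) (x : FreeGroup α),
      f (ψ x) = f x) : Phi a b c ψ = 0 := by
  unfold Phi tr Matrix.trace
  rw [map_sum]
  refine Finset.sum_eq_zero fun m _ => ?_
  rw [Matrix.diag_apply, Ja_sub_apply, map_sub, sub_eq_zero, lam_def, lam_def]
  simp only [← c4_def]
  rw [c4_eq (h (R5 a b c m) (of m)), c4_eq (h (R5 a c b m) (of m)), c4_eq (h (R5 b a c m) (of m)),
    c4_eq (h (R5 b c a m) (of m))]

end Pool.Agent.Y62.CT
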