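import Mathlib

/-! An elementary abelian 3-group with a dual system of functionals. -/

set_option autoImplicit false

namespace Pool.Agent.Y62.CT

lemma pow_val_add {G : Type} [Group G] {f : G} (hf : f * f * f = 1) (a b : ZMod 3) :
    f ^ (a + b).val = f ^ a.val * f ^ b.val := by
  have h3 : f ^ 3 = 1 := by rw [pow_succ, pow_two]; exact hf
  rw [← pow_add, ZMod.val_add, ← pow_eq_pow_mod _ h3]

theorem dual_elim {A P S : Type} [Group A] [Group P] [Fintype S] [DecidableEq S]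
    (π : A →* P) (M : Subgroup P) (hcomm : ∀ u ∈ M, ∀ v ∈ M, u * v = v * u)
    (hcube : ∀ u ∈ M, u * u * u = 1) (c : S → A)
    (hM : M ≤ Subgroup.closure (Set.range fun s => π (c s))) (hcM : ∀ s, π (c s) ∈ M)
    (X : Subgroup A) (Φ : S → A → ZMod 3)
    (hX : ∀ s, ∀ a ∈ X, ∀ b ∈ X, Φ s (a * b) = Φ s a + Φ s b) (hker : π.ker ≤ X)
    (hΦker : ∀ s, ∀ a ∈ π.ker, Φ s a = 0) (hc : ∀ s, c s ∈ X)
    (hΦ : ∀ s t, Φ s (c t) = if t = s then -1 else 0) (a : A) (ha : π a ∈ M) :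
    a ∈ X ∧ ((∀ s, Φ s a = 0) → π a = 1) := by
  letI : CommGroup M :=
    { (inferInstance : Group M) with
      mul_comm := fun u v => Subtype.ext (hcomm u u.2 v v.2) }
  let F : S → M := fun s => ⟨π (c s), hcM s⟩
  have hF3 : ∀ s, F s * F s * F s = 1 := fun s => Subtype.ext (hcube _ (hcM s))
  let pr : A → M := fun a => ∏ s, F s ^ (-Φ s a).val
  have pr_mul : ∀ a ∈ X, ∀ b ∈ X, pr (a * b) = pr a * pr b := by
    intro a ha b hb
    show (∏ s, F s ^ (-Φ s (a * b)).val) = (∏ s, F s ^ (-Φ s a).val) * ∏ s, F s ^ (-Φ s b).val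
    rw [← Finset.prod_mul_distrib]
    refine Finset.prod_congr rfl fun s _ => ?_
    rw [hX s a ha b hb, neg_add, pow_val_add (hF3 s)]
  have pr_zero : ∀ a, (∀ s, Φ s a = 0) → pr a = 1 := by
    intro a h
    refine Finset.prod_eq_one fun s _ => ?_
    rw [h s, neg_zero, ZMod.val_zero, pow_zero]
  have pr_c : ∀ t, pr (c t) = F t := by
    intro t
    show (∏ s, F s ^ (-Φ s (c t)).val) = F t
    rw [Finset.prod_eq_single t]
    · rw [hΦ, if_pos rfl, neg_neg]
      have : (1 : ZMod 3).val = 1 := rfl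
      rw [this, pow_one]
    · intro s _ hs
      rw [hΦ, if_neg (Ne.symm hs), neg_zero, ZMod.val_zero, pow_zero]
    · intro h; exact absurd (Finset.mem_univ t) h
  have pr_one : pr 1 = 1 := pr_zero 1 fun s => hΦker s 1 (one_mem _)
  have key : ∀ x ∈ Subgroup.closure (Set.range fun s => π (c s)),
      ∃ b ∈ X, π b = x ∧ ((pr b : M) : P) = x := by
    intro x hx
    induction hx using Subgroup.closure_induction with
    | mem y hy =>
      obtain ⟨t, rfl⟩ := hy
      exact ⟨c t, hc t, rfl, by rw [pr_c]⟩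
    | one => exact ⟨1, one_mem _, map_one _, by rw [pr_one]; rfl⟩
    | mul y z _ _ hy hz =>
      obtain ⟨b, hb, e1, e2⟩ := hy
      obtain ⟨d, hd, e3, e4⟩ := hz
      exact ⟨b * d, mul_mem hb hd, by rw [map_mul, e1, e3], by
        rw [pr_mul b hb d hd, ← e2, ← e4]; rfl⟩
    | inv y _ hy =>
      obtain ⟨b, hb, e1, e2⟩ := hy
      refine ⟨b⁻¹, inv_mem hb, by rw [map_inv, e1], ?_⟩
      have h := pr_mul b⁻¹ (inv_mem hb) b hb
      rw [inv_mul_cancel, pr_one] at h
      have h2 : pr b⁻¹ = (pr b)⁻¹ := eq_inv_of_mul_eq_one_left h.symm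
      rw [h2, ← e2]; rfl
  obtain ⟨b, hb, e1, e2⟩ := key (π a) (hM ha)
  have hk : b⁻¹ * a ∈ π.ker := by
    rw [MonoidHom.mem_ker, map_mul, map_inv, e1, inv_mul_cancel]
  have hk' := hker hk
  have e3 : a = b * (b⁻¹ * a) := by group
  refine ⟨by rw [e3]; exact mul_mem hb hk', fun h => ?_⟩
  have e4 : ∀ s, Φ s b = 0 := by
    intro s
    have := h s
    rw [e3, hX s b hb _ hk', hΦker s _ hk, add_zero] at this
    exact this
  rw [← e2, pr_zero b e4]
  rfl

end Pool.Agent.Y62.CT
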