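import Pool.Agent.Y62.CT.Alg

/-!
The filtration of the group algebra defined by Fox derivatives, the coefficients of degree at most
four and the chain rule.
-/

set_option autoImplicit false
set_option linter.unusedSectionVars false

namespace Pool.Agent.Y62.CT

open FreeGroup (of)

variable {α : Type} [DecidableEq α]

/-- The filtration. -/
noncomputable def Fil (α : Type) [DecidableEq α] : ℕ → Submodule (ZMod 3) (GA α)
  | 0 => ⊤
  | k + 1 => LinearMap.ker (aug (α := α)).toLinearMap ⊓ ⨅ l : α, (Fil α k).comap (D l)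

lemma mem_Fil_succ {k : ℕ} {x : GA α} :
    x ∈ Fil α (k + 1) ↔ aug x = 0 ∧ ∀ l, D l x ∈ Fil α k := by
  show (x ∈ LinearMap.ker (aug (α := α)).toLinearMap ⊓ ⨅ l : α, (Fil α k).comap (D l)) ↔ _
  rw [Submodule.mem_inf, Submodule.mem_iInf]
  rfl

lemma mem_Fil_zero (x : GA α) : x ∈ Fil α 0 := Submodule.mem_top

lemma Fil_succ_le (k : ℕ) : Fil α (k + 1) ≤ Fil α k := by
  induction k with
  | zero => intro x _; exact mem_Fil_zero x
  | succ k ih =>
    intro x hx
    rw [mem_Fil_succ] at hx ⊢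
    exact ⟨hx.1, fun l => ih (hx.2 l)⟩

lemma Fil_anti {j k : ℕ} (h : j ≤ k) : Fil α k ≤ Fil α j := by
  induction h with
  | refl => exact le_rfl
  | step _ ih => exact (Fil_succ_le _).trans ih

lemma Fil_mul_left {k : ℕ} {x : GA α} (hx : x ∈ Fil α k) (r : GA α) : r * x ∈ Fil α k := by
  induction k generalizing x with
  | zero => exact mem_Fil_zero _
  | succ k ih =>
    rw [mem_Fil_succ] at hx ⊢
    refine ⟨by rw [map_mul, hx.1, mul_zero], fun l => ?_⟩
    rw [D_mul, hx.1, zero_smul, zero_add]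
    exact ih (hx.2 l)

lemma Fil_mul_right {k : ℕ} {x : GA α} (hx : x ∈ Fil α k) (r : GA α) : x * r ∈ Fil α k := by
  induction k generalizing x r with
  | zero => exact mem_Fil_zero _
  | succ k ih =>
    have hx' := Fil_succ_le k hx
    rw [mem_Fil_succ] at hx ⊢
    refine ⟨by rw [map_mul, hx.1, zero_mul], fun l => ?_⟩
    rw [D_mul]
    exact add_mem (Submodule.smul_mem _ _ (hx.2 l)) (ih hx' _)

lemma Fil_mul {j k : ℕ} {x y : GA α} (hx : x ∈ Fil α j) (hy : y ∈ Fil α k) :
    x * y ∈ Fil α (j + k) := by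
  induction k generalizing y with
  | zero => exact Fil_mul_right hx y
  | succ k ih =>
    rw [mem_Fil_succ] at hy
    rw [← add_assoc, mem_Fil_succ]
    refine ⟨by rw [map_mul, hy.1, mul_zero], fun l => ?_⟩
    rw [D_mul, hy.1, zero_smul, zero_add]
    exact ih (hy.2 l)

lemma o_sub_one_mem (g : FreeGroup α) : o g - 1 ∈ Fil α 1 := by
  rw [mem_Fil_succ]
  exact ⟨by rw [map_sub, aug_o, map_one, sub_self], fun l => mem_Fil_zero _⟩

lemma sub_aug_mem (x : GA α) : x - algebraMap (ZMod 3) _ (aug x) ∈ Fil α 1 := by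
  rw [mem_Fil_succ]
  refine ⟨?_, fun l => mem_Fil_zero _⟩
  rw [map_sub, AlgHom.commutes]
  exact sub_self _

/-- The coefficients. -/
noncomputable def c1 (a : α) : GA α →ₗ[ZMod 3] ZMod 3 := (aug (α := α)).toLinearMap ∘ₗ D a
/-- The coefficients of degree two. -/
noncomputable def c2 (a b : α) : GA α →ₗ[ZMod 3] ZMod 3 := c1 a ∘ₗ D b
/-- The coefficients of degree three. -/
noncomputable def c3 (a b c : α) : GA α →ₗ[ZMod 3] ZMod 3 := c2 a b ∘ₗ D c
/-- The coefficients of degree four. -/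
noncomputable def c4 (a b c d : α) : GA α →ₗ[ZMod 3] ZMod 3 := c3 a b c ∘ₗ D d

lemma c1_def (a : α) (x : GA α) : c1 a x = aug (D a x) := rfl
lemma c2_def (a b : α) (x : GA α) : c2 a b x = c1 a (D b x) := rfl
lemma c3_def (a b c : α) (x : GA α) : c3 a b c x = c2 a b (D c x) := rfl
lemma c4_def (a b c d : α) (x : GA α) : c4 a b c d x = c3 a b c (D d x) := rfl

lemma c1_mul (a : α) (x y : GA α) : c1 a (x * y) = c1 a x * aug y + aug x * c1 a y := by
  rw [c1_def, D_mul, map_add, map_smul, map_mul, ← c1_def, ← c1_def, smul_eq_mul, mul_comm (aug y)]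

lemma c2_mul (a b : α) (x y : GA α) :
    c2 a b (x * y) = c2 a b x * aug y + c1 a x * c1 b y + aug x * c2 a b y := by
  rw [c2_def, D_mul, map_add, map_smul, c1_mul, ← c1_def, ← c2_def, ← c2_def, smul_eq_mul]
  ring

lemma c3_mul (a b c : α) (x y : GA α) :
    c3 a b c (x * y) = c3 a b c x * aug y + c2 a b x * c1 c y + c1 a x * c2 b c y +
      aug x * c3 a b c y := by
  rw [c3_def, D_mul, map_add, map_smul, c2_mul, ← c1_def, ← c2_def, ← c3_def, ← c3_def,
    smul_eq_mul]
  ring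

lemma c4_mul (a b c d : α) (x y : GA α) :
    c4 a b c d (x * y) = c4 a b c d x * aug y + c3 a b c x * c1 d y + c2 a b x * c2 c d y +
      c1 a x * c3 b c d y + aug x * c4 a b c d y := by
  rw [c4_def, D_mul, map_add, map_smul, c3_mul, ← c1_def, ← c2_def, ← c3_def, ← c4_def,
    ← c4_def, smul_eq_mul]
  ring

lemma aug_of_mem {x : GA α} (hx : x ∈ Fil α 1) : aug x = 0 := (mem_Fil_succ.1 hx).1

lemma c1_of_mem (a : α) {x : GA α} (hx : x ∈ Fil α 2) : c1 a x = 0 := by
  rw [c1_def]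
  exact aug_of_mem ((mem_Fil_succ.1 hx).2 a)

lemma c2_of_mem (a b : α) {x : GA α} (hx : x ∈ Fil α 3) : c2 a b x = 0 := by
  rw [c2_def]
  exact c1_of_mem a ((mem_Fil_succ.1 hx).2 b)

lemma c3_of_mem (a b c : α) {x : GA α} (hx : x ∈ Fil α 4) : c3 a b c x = 0 := by
  rw [c3_def]
  exact c2_of_mem a b ((mem_Fil_succ.1 hx).2 c)

lemma c3_mul12 (a b c : α) {x y : GA α} (hx : x ∈ Fil α 1) (hy : y ∈ Fil α 2) :
    c3 a b c (x * y) = c1 a x * c2 b c y := by
  rw [c3_mul, aug_of_mem hx, aug_of_mem (Fil_anti (by norm_num) hy), c1_of_mem c hy]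
  ring

lemma c3_mul21 (a b c : α) {x y : GA α} (hx : x ∈ Fil α 2) (hy : y ∈ Fil α 1) :
    c3 a b c (x * y) = c2 a b x * c1 c y := by
  rw [c3_mul, aug_of_mem hy, aug_of_mem (Fil_anti (by norm_num) hx), c1_of_mem a hx]
  ring

lemma c2_mul11 (a b : α) {x y : GA α} (hx : x ∈ Fil α 1) (hy : y ∈ Fil α 1) :
    c2 a b (x * y) = c1 a x * c1 b y := by
  rw [c2_mul, aug_of_mem hx, aug_of_mem hy]
  ring

lemma Fil_two_iff {x : GA α} : x ∈ Fil α 2 ↔ aug x = 0 ∧ ∀ a, c1 a x = 0 := by
  rw [mem_Fil_succ]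
  refine and_congr_right fun _ => forall_congr' fun l => ?_
  rw [mem_Fil_succ]
  exact ⟨fun h => h.1, fun h => ⟨h, fun _ => mem_Fil_zero _⟩⟩

section chain

variable [Fintype α]

/-- the chain rule -/
lemma D_act (l : α) (ψ : FreeGroup α →* FreeGroup α) (x : GA α) :
    D l (act ψ x) = ∑ j, act ψ (D j x) * D l (o (ψ (of j))) := by
  induction x using ga_ind with
  | h1 g =>
    rw [act_o]
    induction g using FreeGroup.induction_on with
    | C1 => simp
    | of x =>
      simp only [D_of]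
      rw [Finset.sum_eq_single x]
      · rw [if_pos rfl, map_one, one_mul]
      · intro j _ hj
        rw [if_neg (Ne.symm hj), map_zero, zero_mul]
      · intro h; exact absurd (Finset.mem_univ x) h
    | inv_of x ih =>
      rw [map_inv, D_inv, ih, Finset.mul_sum, ← Finset.sum_neg_distrib]
      refine Finset.sum_congr rfl fun j _ => ?_
      have e : ψ (of x)⁻¹ = (ψ (of x))⁻¹ := map_inv ψ _
      rw [D_inv, map_neg, map_mul, act_o, e, neg_mul, mul_assoc]
    | mul a b ha hb =>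
      rw [map_mul, D_mul_o, ha, hb, Finset.mul_sum, ← Finset.sum_add_distrib]
      refine Finset.sum_congr rfl fun j _ => ?_
      rw [D_mul_o, map_add, map_mul, act_o, add_mul, mul_assoc]
  | h2 x y hx hy =>
    rw [map_add, map_add, hx, hy, ← Finset.sum_add_distrib]
    refine Finset.sum_congr rfl fun j _ => ?_
    rw [map_add, map_add, add_mul]
  | h3 r x hx =>
    rw [map_smul, map_smul, hx, Finset.smul_sum]
    refine Finset.sum_congr rfl fun j _ => ?_
    rw [map_smul, map_smul, smul_mul_assoc]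

lemma act_Fil {k : ℕ} (ψ : FreeGroup α →* FreeGroup α) {x : GA α} (hx : x ∈ Fil α k) :
    act ψ x ∈ Fil α k := by
  induction k generalizing x with
  | zero => exact mem_Fil_zero _
  | succ k ih =>
    rw [mem_Fil_succ] at hx ⊢
    refine ⟨by rw [aug_act, hx.1], fun l => ?_⟩
    rw [D_act]
    exact Submodule.sum_mem _ fun j _ => Fil_mul_right (ih (hx.2 j)) _

lemma c1_act (a : α) (ψ : FreeGroup α →* FreeGroup α) (x : GA α) :
    c1 a (act ψ x) = ∑ i, c1 i x * c1 a (o (ψ (of i))) := by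
  rw [c1_def, D_act, map_sum]
  refine Finset.sum_congr rfl fun j _ => ?_
  rw [map_mul, aug_act]
  rfl

lemma c2_act (a b : α) (ψ : FreeGroup α →* FreeGroup α) {x : GA α} (hx : x ∈ Fil α 2) :
    c2 a b (act ψ x) = ∑ i, ∑ j, c2 i j x * (c1 a (o (ψ (of i))) * c1 b (o (ψ (of j)))) := by
  rw [c2_def, D_act, map_sum, Finset.sum_comm]
  refine Finset.sum_congr rfl fun j _ => ?_
  have hj := (mem_Fil_succ.1 hx).2 j
  rw [c1_mul, aug_act, aug_of_mem hj, zero_mul, add_zero, c1_act, Finset.sum_mul]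
  refine Finset.sum_congr rfl fun i _ => ?_
  rw [← c2_def, c1_def b]
  ring

lemma c3_act (a b c : α) (ψ : FreeGroup α →* FreeGroup α) {x : GA α} (hx : x ∈ Fil α 3) :
    c3 a b c (act ψ x) = ∑ i, ∑ j, ∑ k, c3 i j k x *
      (c1 a (o (ψ (of i))) * c1 b (o (ψ (of j))) * c1 c (o (ψ (of k)))) := by
  have e : ∀ i : α, ∑ j, ∑ k, c3 i j k x *
      (c1 a (o (ψ (of i))) * c1 b (o (ψ (of j))) * c1 c (o (ψ (of k)))) =
      ∑ k, ∑ j, c3 i j k x *
      (c1 a (o (ψ (of i))) * c1 b (o (ψ (of j))) * c1 c (o (ψ (of k)))) :=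
    fun i => Finset.sum_comm
  rw [Finset.sum_congr rfl fun i _ => e i, Finset.sum_comm, c3_def, D_act, map_sum]
  refine Finset.sum_congr rfl fun k _ => ?_
  have hk := (mem_Fil_succ.1 hx).2 k
  have hk' := act_Fil ψ hk
  rw [c2_mul, aug_of_mem (Fil_anti (by norm_num) hk'), c1_of_mem a hk', c2_act a b ψ hk]
  rw [zero_mul, zero_mul, add_zero, add_zero, Finset.sum_mul]
  refine Finset.sum_congr rfl fun i _ => ?_
  rw [Finset.sum_mul]
  refine Finset.sum_congr rfl fun j _ => ?_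
  rw [← c3_def, c1_def c]
  ring

end chain

end Pool.Agent.Y62.CT
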