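import Pool.Agent.Y62.CT.Det2

/-!
The functional of a triple vanishes on inner automorphisms when the rank is `1` modulo `3`.
-/

set_option autoImplicit false
set_option linter.unusedSectionVars false

namespace Pool.Agent.Y62.CT

open FreeGroup (of)

variable {α : Type} [DecidableEq α]

lemma c1_g (a : α) (g h : FreeGroup α) : c1 a (o (g * h)) = c1 a (o g) + c1 a (o h) := by
  rw [map_mul, c1_mul, aug_o, aug_o]; ring

lemma c2_g (a b : α) (g h : FreeGroup α) :
    c2 a b (o (g * h)) = c2 a b (o g) + c1 a (o g) * c1 b (o h) + c2 a b (o h) := by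
  rw [map_mul, c2_mul, aug_o, aug_o]; ring

lemma c3_g (a b c : α) (g h : FreeGroup α) :
    c3 a b c (o (g * h)) = c3 a b c (o g) + c2 a b (o g) * c1 c (o h) +
      c1 a (o g) * c2 b c (o h) + c3 a b c (o h) := by
  rw [map_mul, c3_mul, aug_o, aug_o]; ring

lemma c2_one (a b : α) : c2 a b (1 : GA α) = 0 := by rw [c2_def, D_one, map_zero]

lemma c3_one (a b c : α) : c3 a b c (1 : GA α) = 0 := by rw [c3_def, D_one, map_zero]

lemma c1_of (a m : α) : c1 a (o (of m)) = if m = a then 1 else 0 := by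
  rw [c1_def, D_of]
  split_ifs
  · exact map_one _
  · exact map_zero _

lemma c2_of (a b m : α) : c2 a b (o (of m)) = 0 := by
  rw [c2_def, D_of]
  split_ifs
  · exact c1_one' a
  · exact map_zero _
where c1_one' (a : α) : c1 a (1 : GA α) = 0 := by rw [c1_def, D_one, map_zero]

lemma c3_of (a b c m : α) : c3 a b c (o (of m)) = 0 := by
  rw [c3_def, D_of]
  split_ifs
  · exact c2_one a b
  · exact map_zero _

lemma c1_inv (a : α) (g : FreeGroup α) : c1 a (o g⁻¹) = - c1 a (o g) := by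
  have h := c1_g a g g⁻¹
  rw [mul_inv_cancel, map_one, c1_def, D_one, map_zero] at h
  linear_combination -h

lemma c2_inv_of (a b m : α) (hab : a ≠ b) : c2 a b (o (of m)⁻¹) = 0 := by
  have h := c2_g a b (of m) (of m)⁻¹
  rw [mul_inv_cancel, map_one, c2_one, c2_of, c1_inv, c1_of, c1_of] at h
  by_cases h1 : m = a
  · rw [if_neg (fun h2 : m = b => hab (h1.symm.trans h2))] at h
    linear_combination -h
  · rw [if_neg h1] at h
    linear_combination -h

lemma c3_inv_of (a b c m : α) (hab : a ≠ b) : c3 a b c (o (of m)⁻¹) = 0 := by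
  have h := c3_g a b c (of m) (of m)⁻¹
  rw [mul_inv_cancel, map_one, c3_one, c3_of, c2_of, c1_of] at h
  by_cases h1 : m = a
  · have h2 := c2_g b c (of m) (of m)⁻¹
    rw [mul_inv_cancel, map_one, c2_one, c2_of, c1_of,
      if_neg (fun h2 : m = b => hab (h1.symm.trans h2))] at h2
    have h3 : c2 b c (o (of m)⁻¹) = 0 := by linear_combination -h2
    rw [h3] at h
    linear_combination -h
  · rw [if_neg h1] at h
    linear_combination -h

/-- the shuffle relation in degree two -/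
lemma shuffle2 {i j : α} (hij : i ≠ j) (g : FreeGroup α) :
    c1 i (o g) * c1 j (o g) = c2 i j (o g) + c2 j i (o g) := by
  induction g using FreeGroup.induction_on with
  | C1 => rw [map_one, c2_one, c2_one, c1_def, D_one, map_zero]; ring
  | of m =>
    rw [c2_of, c2_of, c1_of, c1_of]
    by_cases h1 : m = i
    · rw [if_neg (fun h2 : m = j => hij (h1.symm.trans h2))]; ring
    · rw [if_neg h1]; ring
  | inv_of m _ =>
    rw [c2_inv_of i j m hij, c2_inv_of j i m (Ne.symm hij), c1_inv, c1_inv, c1_of, c1_of]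
    by_cases h1 : m = i
    · rw [if_neg (fun h2 : m = j => hij (h1.symm.trans h2))]; ring
    · rw [if_neg h1]; ring
  | mul a b ha hb =>
    rw [c1_g, c1_g, c2_g, c2_g]
    linear_combination ha + hb

/-- the shuffle relation in degree three -/
lemma shuffle3 {i j k : α} (hij : i ≠ j) (hik : i ≠ k) (hjk : j ≠ k) (g : FreeGroup α) :
    c1 i (o g) * c2 j k (o g) = c3 i j k (o g) + c3 j i k (o g) + c3 j k i (o g) := by
  induction g using FreeGroup.induction_on with
  | C1 => rw [map_one, c2_one, c3_one, c3_one, c3_one]; ring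
  | of m => rw [c2_of, c3_of, c3_of, c3_of]; ring
  | inv_of m _ =>
    rw [c2_inv_of j k m hjk, c3_inv_of i j k m hij, c3_inv_of j i k m (Ne.symm hij),
      c3_inv_of j k i m hjk]
    ring
  | mul a b ha hb =>
    have h1 := shuffle2 hij a
    have h2 := shuffle2 hik b
    rw [c1_g, c2_g, c3_g, c3_g, c3_g]
    linear_combination ha + hb + c1 k (o b) * h1 + c1 j (o a) * h2

variable [Fintype α]

lemma Ja_conj (g : FreeGroup α) (m l : α) : (Ja (MulAut.conj g) - 1) m l =
    (1 - o (g * of m * g⁻¹)) * D l (o g) + (if m = l then o g - 1 else 0) := by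
  rw [Ja_sub_apply, MulAut.conj_apply, D_mul_o, D_mul_o, D_inv, D_of l m, map_mul o (g * of m) g⁻¹]
  by_cases h : m = l
  · rw [if_pos h, if_pos h]; noncomm_ring
  · rw [if_neg h, if_neg h]; noncomm_ring

lemma u_mem (g : FreeGroup α) (m : α) : 1 - o (g * of m * g⁻¹) ∈ Fil α 1 := by
  have := neg_mem (o_sub_one_mem (g * of m * g⁻¹))
  rwa [neg_sub] at this

lemma u_c1 (g : FreeGroup α) (m a : α) :
    c1 a (1 - o (g * of m * g⁻¹)) = - if m = a then 1 else 0 := by
  rw [map_sub, c1_one, c1_g, c1_g, c1_inv, c1_of]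
  ring

lemma conj_c1 (h3 : ∀ a b : α, ∃ m, m ≠ a ∧ m ≠ b) {g : FreeGroup α}
    (hg : PP (MulAut.conj g)) (l : α) : c1 l (o g) = 0 := by
  obtain ⟨m, hm, _⟩ := h3 l l
  have h := (mem_AA.1 (hg.2 m l)).1
  rw [Ja_conj, if_neg hm, add_zero] at h
  have h2 := c1_of_mem m h
  rw [c1_mul, u_c1, if_pos rfl, aug_of_mem (u_mem g m), ← c1_def] at h2
  linear_combination -h2

lemma conj_c2 (h3 : ∀ a b : α, ∃ m, m ≠ a ∧ m ≠ b) {g : FreeGroup α}
    (hg : PP (MulAut.conj g)) (b l : α) : c2 b l (o g) = 0 := by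
  obtain ⟨m, hm, hmb⟩ := h3 l b
  have h := (mem_AA.1 (hg.2 m l)).2 m b
  rw [Ja_conj, if_neg hm, add_zero] at h
  have hD : D l (o g) ∈ Fil α 1 := by
    rw [mem_Fil_succ]
    exact ⟨conj_c1 h3 hg l, fun _ => mem_Fil_zero _⟩
  rw [c2_mul11 _ _ (u_mem g m) hD, c2_mul11 _ _ (u_mem g m) hD, u_c1, u_c1, if_pos rfl,
    if_neg hmb, ← c2_def] at h
  linear_combination -h

lemma conj_Fil (h3 : ∀ a b : α, ∃ m, m ≠ a ∧ m ≠ b) {g : FreeGroup α}
    (hg : PP (MulAut.conj g)) : o g - 1 ∈ Fil α 3 := by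
  have h2 : ∀ l, D l (o g) ∈ Fil α 2 := fun l =>
    Fil_two_iff.2 ⟨conj_c1 h3 hg l, fun a => conj_c2 h3 hg a l⟩
  rw [mem_Fil_succ]
  refine ⟨by rw [map_sub, aug_o, map_one, sub_self], fun l => ?_⟩
  rw [D_sub_one]
  exact h2 l

lemma Phi_conj (h3 : ∀ a b : α, ∃ m, m ≠ a ∧ m ≠ b) (hc : (Fintype.card α : ZMod 3) = 1)
    {g : FreeGroup α} (hg : PP (MulAut.conj g)) {i j k : α} (hij : i ≠ j) (hik : i ≠ k)
    (hjk : j ≠ k) : Phi i j k (MulAut.conj g) = 0 := by
  have hF := conj_Fil h3 hg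
  have hD : ∀ l, D l (o g) ∈ Fil α 2 := by
    intro l
    have := (mem_Fil_succ.1 hF).2 l
    rwa [D_sub_one] at this
  have key : ∀ a b c : α, c3 a b c (tr (MulAut.conj g)) =
      c3 a b c (o g) - c3 b c a (o g) := by
    intro a b c
    unfold tr Matrix.trace
    rw [map_sum]
    have e : ∀ m : α, c3 a b c ((Ja (MulAut.conj g) - 1).diag m) =
        (- if m = a then c3 b c m (o g) else 0) + c3 a b c (o g) := by
      intro m
      rw [Matrix.diag_apply, Ja_conj, if_pos rfl, map_add, c3_mul12 _ _ _ (u_mem g m) (hD m), u_c1,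
        ← c3_def, map_sub, c3_one, sub_zero]
      split_ifs <;> ring
    rw [Finset.sum_congr rfl fun m _ => e m, Finset.sum_add_distrib, Finset.sum_const,
      Finset.sum_neg_distrib, Finset.sum_ite_eq' Finset.univ a, if_pos (Finset.mem_univ a),
      nsmul_eq_mul, Finset.card_univ, hc]
    ring
  unfold Phi
  rw [lam_def, key, key, key, key]
  have z : ∀ a b : α, c2 a b (o g) = 0 := conj_c2 h3 hg
  have s1 := shuffle3 hij hik hjk g
  have s3 := shuffle3 (Ne.symm hij) hjk hik g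
  have s4 := shuffle3 (Ne.symm hik) (Ne.symm hjk) hij g
  have s6 := shuffle3 (Ne.symm hjk) (Ne.symm hik) (Ne.symm hij) g
  rw [z, mul_zero] at s1 s3 s4 s6
  -- a = ijk, b = ikj, c = jik, d = jki, e = kij, f = kji
  linear_combination s1 - s3 - s4 + s6

end Pool.Agent.Y62.CT
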