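import Pool.Agent.Y62.CT.Main
import Pool.Agent.Y62.CT.Inner

/-!
The index of the normal closure of the cubes of the transvections in the group of automorphisms
acting trivially modulo `K n`.
-/

set_option autoImplicit false
set_option linter.unusedSectionVars false

namespace Pool.Agent.Y62.CT
open Pool.Agent.Helper156.OF Pool.Agent.TH271.CU Pool.Agent.TH271.CV
open FreeGroup (of)

variable {n : ℕ}

lemma cT_TB {p i j k : Fin n} (h1 : p ≠ i) (h2 : p ≠ j) (h3 : p ≠ k) :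
    cT p i j k ∈ TB (Fin n) :=
  FF_mem_TB (p := ((p, true) : Lt (Fin n))) (a := (i, true)) (b := (j, true)) (c := (k, true))
    h1 h2 h3

lemma Nt_le_TB : Nt n ≤ TB (Fin n) := by
  unfold Nt
  apply Subgroup.normalClosure_le_normal
  rintro _ ⟨x, a, rfl⟩
  exact cube_mem_TB x a

/-- The functionals of all sorted triples. -/
noncomputable def Psi (hn : 5 ≤ n) : TB (Fin n) →* Multiplicative (Tri n → ZMod 3) :=
  MonoidHom.mk' (fun ψ => Multiplicative.ofAdd fun t => Phi t.1.1 t.1.2.1 t.1.2.2 ψ.1) (by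
    intro ψ φ
    rw [← ofAdd_add]
    congr 1
    funext t
    exact Phi_mul _ _ _ (core_t hn ψ.2).1 (core_t hn φ.2).1)

lemma Psi_apply (hn : 5 ≤ n) (ψ : TB (Fin n)) :
    Psi hn ψ = Multiplicative.ofAdd fun t => Phi t.1.1 t.1.2.1 t.1.2.2 ψ.1 := rfl

lemma Psi_ker (hn : 5 ≤ n) : (Psi hn).ker = (Nt n).subgroupOf (TB (Fin n)) := by
  ext ψ
  rw [MonoidHom.mem_ker, Subgroup.mem_subgroupOf, Psi_apply, ofAdd_eq_one]
  constructor
  · intro h
    refine (core_t hn ψ.2).2 fun a b c hab hbc => ?_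
    exact congrFun h ⟨(a, b, c), hab, hbc⟩
  · intro h
    funext t
    exact Phi_P0 _ _ _ (Nt_le_P0 hn h)

lemma exists_out3 (hn : 5 ≤ n) (i j k : Fin n) : ∃ p : Fin n, p ≠ i ∧ p ≠ j ∧ p ≠ k := by
  have hn' : 5 ≤ Fintype.card (Fin n) := by rw [Fintype.card_fin]; exact hn
  obtain ⟨m, m1, m2, m3, _⟩ := fresh hn' (i, true) (j, true) (k, true) (i, true)
  exact ⟨m.1, m1, m2, m3⟩

lemma Psi_range (hn : 5 ≤ n) : (Psi hn).range = ⊤ := by
  have hc : ∀ (t : Tri n) (z : ZMod 3),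
      Multiplicative.ofAdd (Pi.single t z : Tri n → ZMod 3) ∈ (Psi hn).range := by
    intro t z
    obtain ⟨p, p1, p2, p3⟩ := exists_out3 hn t.1.1 t.1.2.1 t.1.2.2
    have e : Psi hn ⟨cT p t.1.1 t.1.2.1 t.1.2.2, cT_TB p1 p2 p3⟩ =
        Multiplicative.ofAdd (Pi.single t (-1) : Tri n → ZMod 3) := by
      rw [Psi_apply]
      congr 1
      funext s
      rw [(Phi_tri p1 p2 p3 t.2.1 t.2.2 s.2.1 s.2.2 (cT_p p1 p2 p3) (fun l hl => cT_fix hl)).2]
      by_cases h : s = t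
      · subst h
        rw [if_pos ⟨rfl, rfl, rfl⟩, Pi.single_eq_same]
      · rw [Pi.single_eq_of_ne h, if_neg]
        rintro ⟨e1, e2, e3⟩
        exact h (Subtype.ext (Prod.ext e1 (Prod.ext e2 e3))).symm
    refine ⟨⟨cT p t.1.1 t.1.2.1 t.1.2.2, cT_TB p1 p2 p3⟩ ^ (-z).val, ?_⟩
    rw [map_pow, e, ← ofAdd_nsmul, ← Pi.single_smul', nsmul_eq_mul, ZMod.natCast_zmod_val]
    congr 2
    ring
  rw [eq_top_iff]
  intro v _
  have e : v = ∏ t, Multiplicative.ofAdd (Pi.single t (Multiplicative.toAdd v t) :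
      Tri n → ZMod 3) := by
    rw [← ofAdd_sum, Finset.univ_sum_single]
    rfl
  rw [e]
  exact Subgroup.prod_mem _ fun t _ => hc t _

lemma card_Tri (n : ℕ) : Fintype.card (Tri n) = n.choose 3 := by
  rw [← Fintype.card_fin n, ← Fintype.card_finset_len (α := Fin n) 3, Fintype.card_fin]
  let f : Tri n → {s : Finset (Fin n) // s.card = 3} := fun t =>
    ⟨{t.1.1, t.1.2.1, t.1.2.2}, Finset.card_eq_three.2 ⟨t.1.1, t.1.2.1, t.1.2.2, ne_of_lt t.2.1,
      ne_of_lt (t.2.1.trans t.2.2), ne_of_lt t.2.2, rfl⟩⟩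
  refine Fintype.card_of_bijective (f := f) ⟨?_, ?_⟩
  · rintro ⟨⟨a, b, c⟩, h1, h2⟩ ⟨⟨a', b', c'⟩, h3, h4⟩ h
    have h' : ({a, b, c} : Finset (Fin n)) = {a', b', c'} := congrArg Subtype.val h
    simp only at h1 h2 h3 h4
    have m1 : a ∈ ({a', b', c'} : Finset (Fin n)) := h' ▸ by simp
    have m2 : b ∈ ({a', b', c'} : Finset (Fin n)) := h' ▸ by simp
    have m3 : c ∈ ({a', b', c'} : Finset (Fin n)) := h' ▸ by simp
    simp only [Finset.mem_insert, Finset.mem_singleton, Fin.ext_iff] at m1 m2 m3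
    rw [Fin.lt_def] at h1 h2 h3 h4
    have e1 : a = a' := Fin.ext (by omega)
    have e2 : b = b' := Fin.ext (by omega)
    have e3 : c = c' := Fin.ext (by omega)
    subst e1 e2 e3
    rfl
  · rintro ⟨s, hs⟩
    let e := s.orderEmbOfFin hs
    refine ⟨⟨(e 0, e 1, e 2), e.strictMono (by decide), e.strictMono (by decide)⟩, ?_⟩
    apply Subtype.ext
    show ({e 0, e 1, e 2} : Finset (Fin n)) = s
    apply Finset.coe_injective
    rw [← Finset.range_orderEmbOfFin s hs]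
    ext x
    simp only [Finset.coe_insert, Finset.coe_singleton, Set.mem_insert_iff,
      Set.mem_singleton_iff, Set.mem_range]
    constructor
    · rintro (h | h | h)
      · exact ⟨0, h.symm⟩
      · exact ⟨1, h.symm⟩
      · exact ⟨2, h.symm⟩
    · rintro ⟨i, hi⟩
      fin_cases i
      · exact Or.inl hi.symm
      · exact Or.inr (Or.inl hi.symm)
      · exact Or.inr (Or.inr hi.symm)

theorem relIndex_eq (hn : 5 ≤ n) : (Nt n).relIndex (TB (Fin n)) = 3 ^ n.choose 3 := by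
  unfold Subgroup.relIndex
  rw [← Psi_ker hn, Subgroup.index_ker, Psi_range hn, Subgroup.card_top, ← card_Tri n,
    Nat.card_eq_fintype_card]
  have : Fintype.card (Multiplicative (Tri n → ZMod 3)) = Fintype.card (Tri n → ZMod 3) :=
    Fintype.card_multiplicative _
  rw [this, Fintype.card_fun, ZMod.card]

/-- A product of a triple partial conjugation and an inner automorphism is not in the normal
closure of the cubes when `n` is `1` modulo `3`. -/
lemma not_inner (hn : 5 ≤ n) (h1 : n % 3 = 1) {p i j k : Fin n} (g1 : p ≠ i) (g2 : p ≠ j)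
    (g3 : p ≠ k) (h12 : i < j) (h23 : j < k) (g : FreeGroup (Fin n)) :
    cT p i j k * MulAut.conj g ∉ Nt n := by
  intro h
  have h0 := Nt_le_P0 hn h
  have hc := Phi_tri g1 g2 g3 h12 h23 h12 h23 (cT_p g1 g2 g3) (fun l hl => cT_fix hl)
  have hg : PP (MulAut.conj g) := by
    have : MulAut.conj g = (cT p i j k)⁻¹ * (cT p i j k * MulAut.conj g) := by group
    rw [this]
    exact (PP_mul (PP_inv hc.1) h0.1).1
  have e := Phi_mul i j k hc.1 hg
  have hcard : (Fintype.card (Fin n) : ZMod 3) = 1 := by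
    rw [Fintype.card_fin]
    have : n = 3 * (n / 3) + 1 := by omega
    rw [this, Nat.cast_add, Nat.cast_mul]
    have h3 : ((3 : ℕ) : ZMod 3) = 0 := rfl
    rw [h3]
    simp
  have h3 : ∀ a b : Fin n, ∃ m, m ≠ a ∧ m ≠ b := by
    intro a b
    obtain ⟨m, m1, m2, _⟩ := exists_out3 hn a b a
    exact ⟨m, m1, m2⟩
  rw [Phi_P0 i j k h0, hc.2, if_pos ⟨rfl, rfl, rfl⟩, Phi_conj h3 hcard hg (ne_of_lt h12)
    (ne_of_lt (h12.trans h23)) (ne_of_lt h23)] at e
  exact absurd e (by decide)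

end Pool.Agent.Y62.CT
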