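import Pool.Agent.Y62.CT.Fil

/-!
The ideals `AA` and `NN`, the Fox Jacobian and the group of automorphisms whose Jacobian is trivial
modulo `AA`; the trace of the Jacobian modulo `NN`.
-/

set_option autoImplicit false
set_option linter.unusedSectionVars false

namespace Pool.Agent.Y62.CT

open FreeGroup (of)

variable {α : Type} [DecidableEq α]

/-- The functional of a triple. -/
noncomputable def lam (i j k : α) : GA α →ₗ[ZMod 3] ZMod 3 :=
  c3 i j k + c3 i k j - c3 j i k - c3 j k i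

lemma lam_def (i j k : α) (x : GA α) :
    lam i j k x = c3 i j k x + c3 i k j x - c3 j i k x - c3 j k i x := by
  unfold lam
  rw [LinearMap.sub_apply, LinearMap.sub_apply, LinearMap.add_apply]

/-- Elements of filtration two with symmetric part of degree two. -/
noncomputable def AA (α : Type) [DecidableEq α] : Submodule (ZMod 3) (GA α) :=
  Fil α 2 ⊓ ⨅ a : α, ⨅ b : α, LinearMap.ker (c2 a b - c2 b a)

/-- Elements of filtration three killed by all the functionals `lam`. -/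
noncomputable def NN (α : Type) [DecidableEq α] : Submodule (ZMod 3) (GA α) :=
  Fil α 3 ⊓ ⨅ i : α, ⨅ j : α, ⨅ k : α, LinearMap.ker (lam i j k)

lemma mem_AA {x : GA α} : x ∈ AA α ↔ x ∈ Fil α 2 ∧ ∀ a b, c2 a b x = c2 b a x := by
  unfold AA
  rw [Submodule.mem_inf, Submodule.mem_iInf]
  refine and_congr_right fun _ => forall_congr' fun a => ?_
  rw [Submodule.mem_iInf]
  refine forall_congr' fun b => ?_
  rw [LinearMap.mem_ker, LinearMap.sub_apply, sub_eq_zero]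

lemma mem_NN {x : GA α} : x ∈ NN α ↔ x ∈ Fil α 3 ∧ ∀ i j k, lam i j k x = 0 := by
  unfold NN
  rw [Submodule.mem_inf, Submodule.mem_iInf]
  refine and_congr_right fun _ => forall_congr' fun a => ?_
  rw [Submodule.mem_iInf]
  refine forall_congr' fun b => ?_
  rw [Submodule.mem_iInf]
  refine forall_congr' fun b => ?_
  rw [LinearMap.mem_ker]

lemma AA_mul_left {x : GA α} (hx : x ∈ AA α) (r : GA α) : r * x ∈ AA α := by
  rw [mem_AA] at hx ⊢
  refine ⟨Fil_mul_left hx.1 r, fun a b => ?_⟩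
  rw [c2_mul, c2_mul, aug_of_mem (Fil_anti (by norm_num) hx.1), c1_of_mem a hx.1,
    c1_of_mem b hx.1, hx.2 a b]
  ring

lemma AA_mul_right {x : GA α} (hx : x ∈ AA α) (r : GA α) : x * r ∈ AA α := by
  rw [mem_AA] at hx ⊢
  refine ⟨Fil_mul_right hx.1 r, fun a b => ?_⟩
  rw [c2_mul, c2_mul, aug_of_mem (Fil_anti (by norm_num) hx.1), c1_of_mem a hx.1,
    c1_of_mem b hx.1, hx.2 a b]
  ring

lemma Fil3_le_AA {x : GA α} (hx : x ∈ Fil α 3) : x ∈ AA α := by
  rw [mem_AA]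
  exact ⟨Fil_succ_le 2 hx, fun a b => by rw [c2_of_mem a b hx, c2_of_mem b a hx]⟩

lemma Fil4_le_NN {x : GA α} (hx : x ∈ Fil α 4) : x ∈ NN α := by
  rw [mem_NN]
  refine ⟨Fil_succ_le 3 hx, fun i j k => ?_⟩
  rw [lam_def, c3_of_mem _ _ _ hx, c3_of_mem _ _ _ hx, c3_of_mem _ _ _ hx, c3_of_mem _ _ _ hx]
  ring

lemma NN_le_AA {x : GA α} (hx : x ∈ NN α) : x ∈ AA α := Fil3_le_AA (mem_NN.1 hx).1

lemma c3_left {x : GA α} (hx : x ∈ Fil α 3) (r : GA α) (a b c : α) :
    c3 a b c (r * x) = aug r * c3 a b c x := by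
  rw [c3_mul, aug_of_mem (Fil_anti (by norm_num) hx), c1_of_mem c (Fil_anti (by norm_num) hx),
    c2_of_mem b c hx]
  ring

lemma c3_right {x : GA α} (hx : x ∈ Fil α 3) (r : GA α) (a b c : α) :
    c3 a b c (x * r) = c3 a b c x * aug r := by
  rw [c3_mul, aug_of_mem (Fil_anti (by norm_num) hx), c1_of_mem a (Fil_anti (by norm_num) hx),
    c2_of_mem a b hx]
  ring

lemma NN_mul_left {x : GA α} (hx : x ∈ NN α) (r : GA α) : r * x ∈ NN α := by
  rw [mem_NN] at hx ⊢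
  refine ⟨Fil_mul_left hx.1 r, fun i j k => ?_⟩
  have h := hx.2 i j k
  rw [lam_def] at h
  rw [lam_def, c3_left hx.1, c3_left hx.1, c3_left hx.1, c3_left hx.1]
  linear_combination aug r * h

lemma NN_mul_right {x : GA α} (hx : x ∈ NN α) (r : GA α) : x * r ∈ NN α := by
  rw [mem_NN] at hx ⊢
  refine ⟨Fil_mul_right hx.1 r, fun i j k => ?_⟩
  have h := hx.2 i j k
  rw [lam_def] at h
  rw [lam_def, c3_right hx.1, c3_right hx.1, c3_right hx.1, c3_right hx.1]
  linear_combination aug r * h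

lemma AA_mul_AA {x y : GA α} (hx : x ∈ AA α) (hy : y ∈ AA α) : x * y ∈ NN α :=
  Fil4_le_NN (Fil_mul (mem_AA.1 hx).1 (mem_AA.1 hy).1)

lemma three_zero : (3 : ZMod 3) = 0 := by decide

lemma comm_mem (r : GA α) {x : GA α} (hx : x ∈ AA α) : r * x - x * r ∈ NN α := by
  have hx' := mem_AA.1 hx
  set r' := r - algebraMap (ZMod 3) _ (aug r) with hr'
  have h1 : r' ∈ Fil α 1 := sub_aug_mem r
  have e : r * x - x * r = r' * x - x * r' := by
    rw [hr', sub_mul, mul_sub, Algebra.commutes]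
    abel
  rw [e, mem_NN]
  refine ⟨sub_mem (Fil_mul h1 hx'.1) (Fil_mul hx'.1 h1), fun i j k => ?_⟩
  rw [lam_def]
  simp only [map_sub, c3_mul12 _ _ _ h1 hx'.1, c3_mul21 _ _ _ hx'.1 h1]
  rw [hx'.2 k j, hx'.2 k i, hx'.2 j i]
  linear_combination (c1 i r' * c2 j k x - c2 i k x * c1 j r') * three_zero

section act

variable [Fintype α]

lemma act_AA (ψ : FreeGroup α →* FreeGroup α) {x : GA α} (hx : x ∈ AA α) : act ψ x ∈ AA α := by
  rw [mem_AA] at hx ⊢
  refine ⟨act_Fil ψ hx.1, fun a b => ?_⟩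
  rw [c2_act a b ψ hx.1, c2_act b a ψ hx.1, Finset.sum_comm]
  refine Finset.sum_congr rfl fun i _ => Finset.sum_congr rfl fun j _ => ?_
  rw [hx.2 i j]
  ring

lemma sum_swap23 (f : α → α → α → ZMod 3) :
    ∑ p, ∑ q, ∑ r, f p q r = ∑ p, ∑ q, ∑ r, f p r q :=
  Finset.sum_congr rfl fun _ _ => Finset.sum_comm

lemma sum_swap12 (f : α → α → α → ZMod 3) :
    ∑ p, ∑ q, ∑ r, f p q r = ∑ p, ∑ q, ∑ r, f q p r := Finset.sum_comm

lemma act_NN (ψ : FreeGroup α →* FreeGroup α) {x : GA α} (hx : x ∈ NN α) : act ψ x ∈ NN α := by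
  rw [mem_NN] at hx ⊢
  refine ⟨act_Fil ψ hx.1, fun i j k => ?_⟩
  have key : ∑ p, ∑ q, ∑ r, lam p q r x *
      (c1 i (o (ψ (of p))) * c1 j (o (ψ (of q))) * c1 k (o (ψ (of r)))) = 0 := by
    refine Finset.sum_eq_zero fun p _ => Finset.sum_eq_zero fun q _ =>
      Finset.sum_eq_zero fun r _ => ?_
    rw [hx.2 p q r, zero_mul]
  rw [← key, lam_def, c3_act i j k ψ hx.1, c3_act i k j ψ hx.1, c3_act j i k ψ hx.1,
    c3_act j k i ψ hx.1]
  rw [sum_swap23 (fun p q r => c3 p q r x *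
      (c1 i (o (ψ (of p))) * c1 k (o (ψ (of q))) * c1 j (o (ψ (of r)))))]
  rw [sum_swap12 (fun p q r => c3 p q r x *
      (c1 j (o (ψ (of p))) * c1 i (o (ψ (of q))) * c1 k (o (ψ (of r)))))]
  rw [sum_swap23 (fun p q r => c3 p q r x *
      (c1 j (o (ψ (of p))) * c1 k (o (ψ (of q))) * c1 i (o (ψ (of r)))))]
  rw [sum_swap12 (fun p q r => c3 p r q x *
      (c1 j (o (ψ (of p))) * c1 k (o (ψ (of r))) * c1 i (o (ψ (of q)))))]
  rw [← Finset.sum_add_distrib, ← Finset.sum_sub_distrib, ← Finset.sum_sub_distrib]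
  refine Finset.sum_congr rfl fun p _ => ?_
  rw [← Finset.sum_add_distrib, ← Finset.sum_sub_distrib, ← Finset.sum_sub_distrib]
  refine Finset.sum_congr rfl fun q _ => ?_
  rw [← Finset.sum_add_distrib, ← Finset.sum_sub_distrib, ← Finset.sum_sub_distrib]
  refine Finset.sum_congr rfl fun r _ => ?_
  rw [lam_def]
  ring

/-- The Jacobian. -/
noncomputable def Jm (ψ : FreeGroup α →* FreeGroup α) : Matrix α α (GA α) :=
  fun m l => D l (o (ψ (of m)))

lemma Jm_apply (ψ : FreeGroup α →* FreeGroup α) (m l : α) : Jm ψ m l = D l (o (ψ (of m))) := rfl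

lemma Jm_comp (ψ φ : FreeGroup α →* FreeGroup α) :
    Jm (ψ.comp φ) = (Jm φ).map (act ψ) * Jm ψ := by
  ext1 m l
  rw [Matrix.mul_apply, Jm_apply, MonoidHom.comp_apply, ← act_o, D_act]
  rfl

lemma Jm_id : Jm (MonoidHom.id (FreeGroup α)) = 1 := by
  ext1 m l
  rw [Jm_apply, MonoidHom.id_apply, D_of, Matrix.one_apply]

/-- The action of an automorphism. -/
noncomputable def ac (ψ : MulAut (FreeGroup α)) : GA α →ₐ[ZMod 3] GA α := act ψ.toMonoidHom

/-- The Jacobian of an automorphism. -/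
noncomputable def Ja (ψ : MulAut (FreeGroup α)) : Matrix α α (GA α) := Jm ψ.toMonoidHom

lemma ac_o (ψ : MulAut (FreeGroup α)) (g : FreeGroup α) : ac ψ (o g) = o (ψ g) := act_o _ _

lemma ac_mul (ψ φ : MulAut (FreeGroup α)) (x : GA α) : ac (ψ * φ) x = ac ψ (ac φ x) := by
  induction x using ga_ind with
  | h1 g => rw [ac_o, ac_o, ac_o]; rfl
  | h2 x y hx hy => rw [map_add, map_add, map_add, hx, hy]
  | h3 r x hx => rw [map_smul, map_smul, map_smul, hx]

lemma ac_one (x : GA α) : ac (1 : MulAut (FreeGroup α)) x = x := by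
  induction x using ga_ind with
  | h1 g => rw [ac_o]; rfl
  | h2 x y hx hy => rw [map_add, hx, hy]
  | h3 r x hx => rw [map_smul, hx]

lemma Ja_mul (ψ φ : MulAut (FreeGroup α)) : Ja (ψ * φ) = (Ja φ).map (ac ψ) * Ja ψ :=
  Jm_comp ψ.toMonoidHom φ.toMonoidHom

lemma Ja_one : Ja (1 : MulAut (FreeGroup α)) = 1 := Jm_id

lemma Ja_apply (ψ : MulAut (FreeGroup α)) (m l : α) : Ja ψ m l = D l (o (ψ (of m))) := rfl

lemma ac_AA (ψ : MulAut (FreeGroup α)) {x : GA α} (hx : x ∈ AA α) : ac ψ x ∈ AA α := act_AA _ hx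

lemma ac_NN (ψ : MulAut (FreeGroup α)) {x : GA α} (hx : x ∈ NN α) : ac ψ x ∈ NN α := act_NN _ hx

/-- Trivial action modulo `NN` and Jacobian trivial modulo `AA`. -/
def PP (ψ : MulAut (FreeGroup α)) : Prop :=
  (∀ x, ac ψ x - x ∈ NN α) ∧ ∀ m l, (Ja ψ - 1) m l ∈ AA α

/-- The trace of the Jacobian minus one. -/
noncomputable def tr (ψ : MulAut (FreeGroup α)) : GA α := (Ja ψ - 1).trace

/-- Matrices with entries in a submodule. -/
def Ent (S : Submodule (ZMod 3) (GA α)) (M : Matrix α α (GA α)) : Prop := ∀ m l, M m l ∈ S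

lemma Ent.add {S : Submodule (ZMod 3) (GA α)} {M N : Matrix α α (GA α)} (hM : Ent S M)
    (hN : Ent S N) : Ent S (M + N) := fun m l => add_mem (hM m l) (hN m l)

lemma Ent.neg {S : Submodule (ZMod 3) (GA α)} {M : Matrix α α (GA α)} (hM : Ent S M) :
    Ent S (-M) := fun m l => neg_mem (hM m l)

lemma Ent.trace {S : Submodule (ZMod 3) (GA α)} {M : Matrix α α (GA α)} (hM : Ent S M) :
    M.trace ∈ S := Submodule.sum_mem _ fun m _ => hM m m

lemma Ent.mono {M : Matrix α α (GA α)} (hM : Ent (NN α) M) : Ent (AA α) M :=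
  fun m l => NN_le_AA (hM m l)

lemma Ent.mulA {M N : Matrix α α (GA α)} (hM : Ent (AA α) M) (hN : Ent (AA α) N) :
    Ent (NN α) (M * N) := fun m l => by
  rw [Matrix.mul_apply]
  exact Submodule.sum_mem _ fun j _ => AA_mul_AA (hM m j) (hN j l)

lemma Ent.mulAr {M : Matrix α α (GA α)} (hM : Ent (AA α) M) (N : Matrix α α (GA α)) :
    Ent (AA α) (M * N) := fun m l => by
  rw [Matrix.mul_apply]
  exact Submodule.sum_mem _ fun j _ => AA_mul_right (hM m j) _

lemma Ent.mulAl {N : Matrix α α (GA α)} (hN : Ent (AA α) N) (M : Matrix α α (GA α)) :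
    Ent (AA α) (M * N) := fun m l => by
  rw [Matrix.mul_apply]
  exact Submodule.sum_mem _ fun j _ => AA_mul_left (hN j l) _

lemma Ent.mulNr {M : Matrix α α (GA α)} (hM : Ent (NN α) M) (N : Matrix α α (GA α)) :
    Ent (NN α) (M * N) := fun m l => by
  rw [Matrix.mul_apply]
  exact Submodule.sum_mem _ fun j _ => NN_mul_right (hM m j) _

lemma Ent.acA {M : Matrix α α (GA α)} (hM : Ent (AA α) M) (ψ : MulAut (FreeGroup α)) :
    Ent (AA α) (M.map (ac ψ)) := fun m l => ac_AA ψ (hM m l)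

lemma map_ac_sub (ψ : MulAut (FreeGroup α)) (M N : Matrix α α (GA α)) :
    (M - N).map (ac ψ) = M.map (ac ψ) - N.map (ac ψ) := by
  ext1 m l
  exact map_sub (ac ψ) (M m l) (N m l)

lemma map_ac_one (ψ : MulAut (FreeGroup α)) :
    (1 : Matrix α α (GA α)).map (ac ψ) = 1 := Matrix.map_one _ (map_zero _) (map_one _)

lemma map_ac_mul (ψ : MulAut (FreeGroup α)) (M N : Matrix α α (GA α)) :
    (M * N).map (ac ψ) = M.map (ac ψ) * N.map (ac ψ) := Matrix.map_mul

lemma map_ac_map (ψ φ : MulAut (FreeGroup α)) (M : Matrix α α (GA α)) :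
    (M.map (ac φ)).map (ac ψ) = M.map (ac (ψ * φ)) := by
  ext1 m l
  exact (ac_mul ψ φ _).symm

lemma trace_ac (ψ : MulAut (FreeGroup α)) (M : Matrix α α (GA α)) :
    (M.map (ac ψ)).trace = ac ψ M.trace := by
  unfold Matrix.trace
  rw [map_sum]
  rfl

lemma PP_one : PP (1 : MulAut (FreeGroup α)) :=
  ⟨fun x => by rw [ac_one, sub_self]; exact zero_mem _, fun m l => by
    rw [Ja_one, sub_self]; exact zero_mem _⟩

lemma PP_mul {ψ φ : MulAut (FreeGroup α)} (hψ : PP ψ) (hφ : PP φ) :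
    PP (ψ * φ) ∧ tr (ψ * φ) - (tr ψ + tr φ) ∈ NN α := by
  have e : Ja (ψ * φ) - 1 = (Ja φ - 1).map (ac ψ) * (Ja ψ - 1) + (Ja φ - 1).map (ac ψ) +
      (Ja ψ - 1) := by
    rw [Ja_mul, map_ac_sub, map_ac_one]
    noncomm_ring
  have h1 : Ent (AA α) (Ja ψ - 1) := hψ.2
  have h2 : Ent (AA α) (Ja φ - 1) := hφ.2
  refine ⟨⟨fun x => ?_, ?_⟩, ?_⟩
  · have : ac (ψ * φ) x - x = (ac ψ (ac φ x) - ac φ x) + (ac φ x - x) := by rw [ac_mul]; abel
    rw [this]
    exact add_mem (hψ.1 _) (hφ.1 _)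
  · rw [e]
    exact (((h2.acA ψ).mulA h1).mono.add (h2.acA ψ)).add h1
  · unfold tr
    rw [e, Matrix.trace_add, Matrix.trace_add, trace_ac]
    have : ((Ja φ - 1).map (ac ψ) * (Ja ψ - 1)).trace + ac ψ (Ja φ - 1).trace +
        (Ja ψ - 1).trace - ((Ja ψ - 1).trace + (Ja φ - 1).trace) =
        ((Ja φ - 1).map (ac ψ) * (Ja ψ - 1)).trace +
          (ac ψ (Ja φ - 1).trace - (Ja φ - 1).trace) := by abel
    rw [this]
    exact add_mem ((h2.acA ψ).mulA h1).trace (hψ.1 _)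

lemma PP_inv {ψ : MulAut (FreeGroup α)} (hψ : PP ψ) : PP ψ⁻¹ := by
  have h1 : Ent (AA α) (Ja ψ - 1) := hψ.2
  refine ⟨fun x => ?_, ?_⟩
  · have e : ac ψ⁻¹ (ac ψ x) = x := by rw [← ac_mul, inv_mul_cancel, ac_one]
    have : ac ψ⁻¹ x - x = - (ac ψ⁻¹ (ac ψ x - x)) := by rw [map_sub, e]; abel
    rw [this]
    exact neg_mem (ac_NN _ (hψ.1 x))
  · have e := Ja_mul ψ⁻¹ ψ
    rw [inv_mul_cancel, Ja_one] at e
    have e2 : Ja ψ⁻¹ - 1 = - ((Ja ψ - 1).map (ac ψ⁻¹) * Ja ψ⁻¹) := by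
      rw [map_ac_sub, map_ac_one, sub_mul, ← e, one_mul]
      abel
    rw [e2]
    exact ((h1.acA ψ⁻¹).mulAr _).neg

lemma trace_cyc {A B M : Matrix α α (GA α)} (h : B * A = 1) (hM : Ent (AA α) M) :
    (A * M * B).trace - M.trace ∈ NN α := by
  have e : M.trace = (B * (A * M)).trace := by rw [← mul_assoc, h, one_mul]
  have hAM : Ent (AA α) (A * M) := hM.mulAl A
  set C := A * M with hC
  have e1 : (C * B).trace = ∑ i, ∑ k, C i k * B k i := by
    unfold Matrix.trace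
    refine Finset.sum_congr rfl fun i _ => ?_
    rw [Matrix.diag_apply, Matrix.mul_apply]
  have e2 : (B * C).trace = ∑ i, ∑ k, B k i * C i k := by
    rw [Finset.sum_comm]
    unfold Matrix.trace
    refine Finset.sum_congr rfl fun i _ => ?_
    rw [Matrix.diag_apply, Matrix.mul_apply]
  rw [e, e1, e2, ← Finset.sum_sub_distrib]
  refine Submodule.sum_mem _ fun i _ => ?_
  rw [← Finset.sum_sub_distrib]
  refine Submodule.sum_mem _ fun k _ => ?_
  rw [← neg_sub]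
  exact neg_mem (comm_mem _ (hAM i k))

lemma PP_conj {ψ : MulAut (FreeGroup α)} (hψ : PP ψ) (γ : MulAut (FreeGroup α)) :
    PP (γ * ψ * γ⁻¹) ∧ tr (γ * ψ * γ⁻¹) - ac γ (tr ψ) ∈ NN α := by
  have h1 : Ent (AA α) (Ja ψ - 1) := hψ.2
  set A := (Ja γ⁻¹).map (ac γ) with hA
  set B := Ja γ with hB
  set M := (Ja ψ - 1).map (ac γ) with hM
  set δ := (Ja γ⁻¹).map (ac (γ * ψ)) - A with hδ
  have hM' : Ent (AA α) M := h1.acA γ
  have hδ' : Ent (NN α) δ := by
    intro m l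
    rw [hδ, hA, ← map_ac_map, ← map_ac_sub]
    exact ac_NN γ (hψ.1 _)
  have hAB : A * B = 1 := by
    have := Ja_mul γ γ⁻¹
    rw [mul_inv_cancel, Ja_one] at this
    exact this.symm
  have hBA : B * A = 1 := by
    have := Ja_mul γ⁻¹ γ
    rw [inv_mul_cancel, Ja_one] at this
    have h2 : (1 : Matrix α α (GA α)).map (ac γ) =
        ((Ja γ).map (ac γ⁻¹) * Ja γ⁻¹).map (ac γ) := by rw [this]
    rw [map_ac_one, map_ac_mul, map_ac_map, mul_inv_cancel] at h2
    rw [h2]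
    congr 1
    ext1 m l
    exact (ac_one _).symm
  have e : Ja (γ * ψ * γ⁻¹) - 1 = A * M * B + δ * (M + 1) * B := by
    have e1 : (Ja γ⁻¹).map (ac (γ * ψ)) = A + δ := by rw [hδ]; abel
    have e2 : (Ja ψ).map (ac γ) = M + 1 := by
      rw [hM, map_ac_sub, map_ac_one]; abel
    rw [Ja_mul, e1, Ja_mul, e2, ← hB]
    have e3 : (A + δ) * ((M + 1) * B) = A * M * B + δ * (M + 1) * B + A * B := by noncomm_ring
    rw [e3, hAB]
    abel
  have hN : Ent (NN α) (δ * (M + 1) * B) := (hδ'.mulNr _).mulNr _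
  refine ⟨⟨fun x => ?_, ?_⟩, ?_⟩
  · have e4 : ac γ (ac γ⁻¹ x) = x := by rw [← ac_mul, mul_inv_cancel, ac_one]
    have : ac (γ * ψ * γ⁻¹) x - x = ac γ (ac ψ (ac γ⁻¹ x) - ac γ⁻¹ x) := by
      rw [map_sub, e4, ac_mul, ac_mul]
    rw [this]
    exact ac_NN γ (hψ.1 _)
  · rw [e]
    exact ((hM'.mulAl A).mulAr B).add hN.mono
  · unfold tr
    rw [e, Matrix.trace_add, ← trace_ac, ← hM]
    have : (A * M * B).trace + (δ * (M + 1) * B).trace - M.trace =
      ((A * M * B).trace - M.trace) + (δ * (M + 1) * B).trace := by abel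
    rw [this]
    exact add_mem (trace_cyc hBA hM') hN.trace

/-- The group of automorphisms with Jacobian trivial modulo `AA`. -/
def PPg (α : Type) [DecidableEq α] [Fintype α] : Subgroup (MulAut (FreeGroup α)) where
  carrier := {ψ | PP ψ}
  mul_mem' h1 h2 := (PP_mul h1 h2).1
  one_mem' := PP_one
  inv_mem' h := PP_inv h

/-- The subgroup where moreover the trace is trivial modulo `NN`. -/
def P0 (α : Type) [DecidableEq α] [Fintype α] : Subgroup (MulAut (FreeGroup α)) where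
  carrier := {ψ | PP ψ ∧ tr ψ ∈ NN α}
  mul_mem' := by
    intro ψ φ h1 h2
    refine ⟨(PP_mul h1.1 h2.1).1, ?_⟩
    have h3 := add_mem (PP_mul h1.1 h2.1).2 (add_mem h1.2 h2.2)
    rwa [sub_add_cancel] at h3
  one_mem' := by
    refine ⟨PP_one, ?_⟩
    unfold tr
    rw [Ja_one, sub_self, Matrix.trace_zero]
    exact zero_mem _
  inv_mem' := by
    intro ψ h
    refine ⟨PP_inv h.1, ?_⟩
    have h3 := (PP_mul h.1 (PP_inv h.1)).2
    rw [mul_inv_cancel] at h3
    have h4 : tr (1 : MulAut (FreeGroup α)) = 0 := by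
      unfold tr
      rw [Ja_one, sub_self, Matrix.trace_zero]
    rw [h4, zero_sub] at h3
    have h5 := neg_mem h3
    rw [neg_neg] at h5
    have h6 := sub_mem h5 h.2
    rwa [add_sub_cancel_left] at h6

instance P0_normal : (P0 α).Normal where
  conj_mem := by
    intro ψ h γ
    refine ⟨(PP_conj h.1 γ).1, ?_⟩
    have h3 := add_mem (PP_conj h.1 γ).2 (ac_NN γ h.2)
    rwa [sub_add_cancel] at h3

end act

end Pool.Agent.Y62.CT
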