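import Pool.Agent.TH271.CV.Final
import Pool.Agent.TH496.FFx

/-!
The subgroup generated by the triple partial conjugations in a quotient of `Aut (F_n)` in which
the cubes of the transvections are trivial.
-/

set_option autoImplicit false
set_option linter.unusedSectionVars false
set_option linter.unusedVariables false

namespace Pool.Agent.Y62.CT
open Pool.Agent.Helper156.OF Pool.Agent.TH271.CU Pool.Agent.TH271.CV
open Pool.Agent.TH496.FFx (NF NF_mem)

section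

variable {α P : Type} [DecidableEq α] [Fintype α] [Group P]
variable {W : SP α →* P} {E : Lt α → Lt α → P}
variable (R : Rel W E) (cb : ∀ x a : Lt α, E x a * E x a * E x a = 1)
  (hn : 5 ≤ Fintype.card α)

include R

lemma W_NF {σ : SP α} {u : P} (hu : u ∈ NF E) : W σ * u * (W σ)⁻¹ ∈ NF E := by
  have hne : ∀ a b : Lt α, a.1 ≠ b.1 → ((σ : Equiv.Perm (Lt α)) a).1 ≠
      ((σ : Equiv.Perm (Lt α)) b).1 := fun a b h => sp_ne σ h
  unfold NF at hu
  induction hu using Subgroup.closure_induction with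
  | mem u hu =>
    obtain ⟨p, a, b, c, h1, h2, h3, h4, h5, h6, rfl⟩ := hu
    rw [Pool.Agent.TH496.FFx.W_FF R]
    exact NF_mem _ _ _ _ (hne _ _ h1) (hne _ _ h2) (hne _ _ h3) (hne _ _ h4) (hne _ _ h5)
      (hne _ _ h6)
  | one => simp
  | mul a b _ _ h1 h2 =>
    have : W σ * (a * b) * (W σ)⁻¹ = (W σ * a * (W σ)⁻¹) * (W σ * b * (W σ)⁻¹) := by group
    rw [this]; exact mul_mem h1 h2
  | inv a _ h1 =>
    have : W σ * a⁻¹ * (W σ)⁻¹ = (W σ * a * (W σ)⁻¹)⁻¹ := by group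
    rw [this]; exact inv_mem h1

include cb hn

lemma E_NF {p q : Lt α} (hpq : p.1 ≠ q.1) {u : P} (hu : u ∈ NF E) :
    E p q * u * (E p q)⁻¹ ∈ NF E := by
  unfold NF at hu
  induction hu using Subgroup.closure_induction with
  | mem u hu =>
    obtain ⟨p', a, b, c, h1, h2, h3, h4, h5, h6, rfl⟩ := hu
    exact Pool.Agent.TH496.FFx.NF_conj R cb hn p' a b c p q h1 h2 h3 h4 h5 h6 hpq
  | one => simp
  | mul a b _ _ h1 h2 =>
    have : E p q * (a * b) * (E p q)⁻¹ = (E p q * a * (E p q)⁻¹) * (E p q * b * (E p q)⁻¹) := by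
      group
    rw [this]; exact mul_mem h1 h2
  | inv a _ h1 =>
    have : E p q * a⁻¹ * (E p q)⁻¹ = (E p q * a * (E p q)⁻¹)⁻¹ := by group
    rw [this]; exact inv_mem h1

theorem NF_normal (gen : ∀ q : P, q ∈ Subgroup.closure
    (Set.range W ∪ {q | ∃ x a : Lt α, x.1 ≠ a.1 ∧ q = E x a})) : (NF E).Normal := by
  constructor
  intro u hu g
  have hg := gen g
  induction hg using Subgroup.closure_induction'' generalizing u with
  | mem x hx =>
    rcases hx with ⟨σ, rfl⟩ | ⟨x, a, hxa, rfl⟩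
    · exact W_NF R hu
    · exact E_NF R cb hn hxa hu
  | inv_mem x hx =>
    rcases hx with ⟨σ, rfl⟩ | ⟨x, a, hxa, rfl⟩
    · rw [← map_inv]; exact W_NF R hu
    · rw [← R.e1]; exact E_NF R cb hn (by simpa using hxa) hu
  | one => simpa using hu
  | mul x y _ _ h1 h2 =>
    have : x * y * u * (x * y)⁻¹ = x * (y * u * y⁻¹) * x⁻¹ := by group
    rw [this]
    exact h1 _ (h2 _ hu)

theorem NF_commute : ∀ u ∈ NF E, ∀ v ∈ NF E, Commute u v := by
  intro u hu v hv
  refine Pool.Agent.TH496.FFx.NF_comm (fun p a b c h1 h2 h3 h4 h5 h6 => ?_) hu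
  refine (Pool.Agent.TH496.FFx.NF_comm (fun q i j k k1 k2 k3 k4 k5 k6 => ?_) hv).symm
  exact (FF_FF R cb hn p a b c q i j k h1 h2 h3 h4 h5 h6 k1 k2 k3).symm

theorem NF_cube : ∀ u ∈ NF E, u * u * u = 1 := by
  have hcomm := NF_commute R cb hn
  have hmul : ∀ a b : P, Commute a b → a * a * a = 1 → b * b * b = 1 →
      a * b * (a * b) * (a * b) = 1 := by
    intro a b h ha hb
    calc a * b * (a * b) * (a * b) = a * (b * a) * (b * a) * b := by group
      _ = a * (a * b) * (a * b) * b := by rw [h.eq]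
      _ = a * a * (b * a) * b * b := by group
      _ = a * a * (a * b) * b * b := by rw [h.eq]
      _ = (a * a * a) * (b * b * b) := by group
      _ = 1 := by rw [ha, hb, one_mul]
  have hinv : ∀ a : P, a * a * a = 1 → a⁻¹ * a⁻¹ * a⁻¹ = 1 := by
    intro a ha
    calc a⁻¹ * a⁻¹ * a⁻¹ = (a * a * a)⁻¹ := by group
      _ = 1 := by rw [ha, inv_one]
  have hsub : ∀ u, u ∈ NF E → u ∈ NF E ∧ u * u * u = 1 := by
    intro u hu
    unfold NF at hu
    induction hu using Subgroup.closure_induction with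
    | mem u hu =>
      obtain ⟨p, a, b, c, h1, h2, h3, h4, h5, h6, rfl⟩ := hu
      exact ⟨NF_mem p a b c h1 h2 h3 h4 h5 h6, FF_cube R cb hn p a b c h1 h2 h3 h4 h5 h6⟩
    | one => exact ⟨one_mem _, by simp⟩
    | mul a b _ _ h1 h2 =>
      exact ⟨mul_mem h1.1 h2.1, hmul a b (hcomm _ h1.1 _ h2.1) h1.2 h2.2⟩
    | inv a _ h => exact ⟨inv_mem h.1, hinv a h.2⟩
  exact fun u hu => (hsub u hu).2

end

section

variable {n : ℕ} {P : Type} [Group P]
variable {W : SP (Fin n) →* P} {E : Lt (Fin n) → Lt (Fin n) → P}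
variable (R : Rel W E) (cb : ∀ x a : Lt (Fin n), E x a * E x a * E x a = 1)
  (hn : 5 ≤ Fintype.card (Fin n))

include R cb hn

theorem NF_le (Q : Subgroup P)
    (hT : ∀ i j k : Fin n, i < j → j < k → ∃ p : Fin n, p ≠ i ∧ p ≠ j ∧ p ≠ k ∧
        FF E (p, true) (i, true) (j, true) (k, true) ∈ Q) : NF E ≤ Q := by
  -- the symmetries
  have s12 : ∀ x a b c : Lt (Fin n), x.1 ≠ a.1 → x.1 ≠ b.1 → x.1 ≠ c.1 → a.1 ≠ b.1 → a.1 ≠ c.1 →
      b.1 ≠ c.1 → FF E x a b c ∈ Q → FF E x b a c ∈ Q := by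
    intro x a b c h1 h2 h3 h4 h5 h6 h
    rw [FF_swap12 R cb hn x a b c h1 h2 h3 h4 h5 h6]; exact inv_mem h
  have s23 : ∀ x a b c : Lt (Fin n), x.1 ≠ a.1 → x.1 ≠ b.1 → x.1 ≠ c.1 → a.1 ≠ b.1 → a.1 ≠ c.1 →
      b.1 ≠ c.1 → FF E x a b c ∈ Q → FF E x a c b ∈ Q := by
    intro x a b c h1 h2 h3 h4 h5 h6 h
    rw [FF_swap23 R cb hn x a b c h1 h2 h3 h4 h5 h6]; exact inv_mem h
  have iT : ∀ x a b c : Lt (Fin n), x.1 ≠ a.1 → x.1 ≠ b.1 → x.1 ≠ c.1 → a.1 ≠ b.1 → a.1 ≠ c.1 →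
      b.1 ≠ c.1 → FF E x a b c ∈ Q → FF E x (nv a) b c ∈ Q := by
    intro x a b c h1 h2 h3 h4 h5 h6 h
    rw [FF_inv1 R cb hn x a b c h1 h2 h3 h4 h5 h6]; exact inv_mem h
  -- all positive letters
  have hT0 : ∀ p i j k : Fin n, p ≠ i → p ≠ j → p ≠ k → i < j → j < k →
      FF E (p, true) (i, true) (j, true) (k, true) ∈ Q := by
    intro p i j k a1 a2 a3 h1 h2
    obtain ⟨q, b1, b2, b3, h⟩ := hT i j k h1 h2
    by_cases hpq : p = q
    · rw [hpq]; exact h
    · rw [FF_indep R cb hn (p, true) (q, true) (i, true) (j, true) (k, true) hpq a1 a2 a3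
        (ne_of_lt h1) (ne_of_lt (h1.trans h2)) (ne_of_lt h2) b1 b2 b3]
      exact h
  have hT1 : ∀ i j k l : Fin n, i ≠ j → i ≠ k → i ≠ l → j ≠ k → j ≠ l → k ≠ l → j < k →
      FF E (i, true) (j, true) (k, true) (l, true) ∈ Q := by
    intro i j k l a1 a2 a3 a4 a5 a6 hjk
    rcases lt_trichotomy k l with h | h | h
    · exact hT0 i j k l a1 a2 a3 hjk h
    · exact absurd h a6
    · rcases lt_trichotomy j l with h' | h' | h'
      · exact s23 (i, true) (j, true) (l, true) (k, true) a1 a3 a2 a5 a4 (Ne.symm a6)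
          (hT0 i j l k a1 a3 a2 h' h)
      · exact absurd h' a5
      · exact s23 (i, true) (j, true) (l, true) (k, true) a1 a3 a2 a5 a4 (Ne.symm a6)
          (s12 (i, true) (l, true) (j, true) (k, true) a3 a1 a2 (Ne.symm a5) (Ne.symm a6) a4
          (hT0 i l j k a3 a1 a2 h' hjk))
  have hT' : ∀ i j k l : Fin n, i ≠ j → i ≠ k → i ≠ l → j ≠ k → j ≠ l → k ≠ l →
      FF E (i, true) (j, true) (k, true) (l, true) ∈ Q := by
    intro i j k l a1 a2 a3 a4 a5 a6
    rcases lt_trichotomy j k with h | h | h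
    · exact hT1 i j k l a1 a2 a3 a4 a5 a6 h
    · exact absurd h a4
    · exact s12 (i, true) (k, true) (j, true) (l, true) a2 a1 a3 (Ne.symm a4) a6 a5
        (hT1 i k j l a2 a1 a3 (Ne.symm a4) a6 a5 h)
  unfold NF
  rw [Subgroup.closure_le]
  rintro _ ⟨x, a, b, c, h1, h2, h3, h4, h5, h6, rfl⟩
  show FF E x a b c ∈ Q
  refine upJ (fun z => FF E z a b c ∈ Q) x ?_ (fun h => by
    rw [Pool.Agent.TH496.FFx.FF_nvl R]; exact h)
  refine upJ (fun z => FF E (x.1, true) z b c ∈ Q) a ?_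
    (fun h => iT (x.1, true) (a.1, true) b c h1 h2 h3 h4 h5 h6 h)
  refine upJ (fun z => FF E (x.1, true) (a.1, true) z c ∈ Q) b ?_ (fun h => ?_)
  · refine upJ (fun z => FF E (x.1, true) (a.1, true) (b.1, true) z ∈ Q) c
      (hT' _ _ _ _ h1 h2 h3 h4 h5 h6) (fun h => ?_)
    -- move the third letter to the front, change the sign, move it back
    have t1 := s23 (x.1, true) (a.1, true) (b.1, true) (c.1, true) h1 h2 h3 h4 h5 h6 h
    have t2 := s12 (x.1, true) (a.1, true) (c.1, true) (b.1, true) h1 h3 h2 h5 h4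
      (Ne.symm h6) t1
    have t3 := iT (x.1, true) (c.1, true) (a.1, true) (b.1, true) h3 h1 h2 (Ne.symm h5)
      (Ne.symm h6) h4 t2
    have t4 := s12 (x.1, true) (nv (c.1, true)) (a.1, true) (b.1, true) h3 h1 h2 (Ne.symm h5)
      (Ne.symm h6) h4 t3
    exact s23 (x.1, true) (a.1, true) (nv (c.1, true)) (b.1, true) h1 h3 h2 h5 h4
      (Ne.symm h6) t4
  · have t1 := s12 (x.1, true) (a.1, true) (b.1, true) c h1 h2 h3 h4 h5 h6 h
    have t2 := iT (x.1, true) (b.1, true) (a.1, true) c h2 h1 h3 (Ne.symm h4) h6 h5 t1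
    exact s12 (x.1, true) (nv (b.1, true)) (a.1, true) c h2 h1 h3 (Ne.symm h4) h6 h5 t2

end

end Pool.Agent.Y62.CT
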