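import Pool.Agent.Y62.CT.Lib
import Pool.Agent.Y62.CT.Det2
import Pool.Agent.Y62.CT.Elim

/-!
The normal closure of the cubes of the transvections is a congruence subgroup of `Aut (F_n)`.
-/

set_option autoImplicit false
set_option linter.unusedSectionVars false

namespace Pool.Agent.Y62.CT
open Pool.Agent.Helper156.OF Pool.Agent.TH271.CU Pool.Agent.TH271.CV
open Pool.Agent.TH496.FFx (NF NF_mem)
open FreeGroup (of)

variable {n : ℕ}

/-- The normal closure of the cubes of the transvections. -/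
def Nt (n : ℕ) : Subgroup (MulAut (FreeGroup (Fin n))) :=
  Subgroup.normalClosure {y | ∃ x a : Lt (Fin n), y = eAut x a * eAut x a * eAut x a}

instance : (Nt n).Normal := Subgroup.normalClosure_normal

lemma cube_P0 {i j : Fin n} (hij : i ≠ j) :
    eAut (i, true) (j, true) * eAut (i, true) (j, true) * eAut (i, true) (j, true) ∈
      P0 (Fin n) := by
  have e1 : eAut (i, true) (j, true) (of i) = of i * of j :=
    e_gl (x := ((i, true) : Lt (Fin n))) (a := (j, true)) hij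
  have e2 : ∀ k, k ≠ i → eAut (i, true) (j, true) (of k) = of k := fun k hk =>
    eAut_fix (i, true) (j, true) (k, true) hk
  refine cube_mem_P0 hij ?_ ?_
  · rw [MulAut.mul_apply, MulAut.mul_apply, e1, map_mul, e1, e2 j (Ne.symm hij), map_mul, map_mul,
      e1, e2 j (Ne.symm hij)]
  · intro k hk
    rw [MulAut.mul_apply, MulAut.mul_apply, e2 k hk, e2 k hk, e2 k hk]

lemma Nt_le_P0 (hn : 5 ≤ n) : Nt n ≤ P0 (Fin n) := by
  have hij : (⟨0, by omega⟩ : Fin n) ≠ ⟨1, by omega⟩ := by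
    intro h
    have := congrArg Fin.val h
    simp at this
  unfold Nt
  apply Subgroup.normalClosure_le_normal
  rintro _ ⟨x, a, rfl⟩
  exact cube_all (N := P0 (Fin n)) inferInstance hij (cube_P0 hij) x a

/-- Sorted triples. -/
abbrev Tri (n : ℕ) : Type := {t : Fin n × Fin n × Fin n // t.1 < t.2.1 ∧ t.2.1 < t.2.2}

/-- The triple partial conjugation. -/
def cT (p i j k : Fin n) : MulAut (FreeGroup (Fin n)) :=
  FF eAut (p, true) (i, true) (j, true) (k, true)

lemma cT_p {p i j k : Fin n} (h1 : p ≠ i) (h2 : p ≠ j) (h3 : p ≠ k) :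
    cT p i j k (of p) = (cm3 i j k)⁻¹ * of p * cm3 i j k :=
  FFe_gl (p := ((p, true) : Lt (Fin n))) (a := (i, true)) (b := (j, true)) (c := (k, true)) h1 h2 h3

lemma cT_fix {p i j k l : Fin n} (h : l ≠ p) : cT p i j k (of l) = of l :=
  FFe_fix (p := ((p, true) : Lt (Fin n))) (a := (i, true)) (b := (j, true)) (c := (k, true))
    (d := (l, true)) h

theorem core_t (hn : 5 ≤ n) {ψ : MulAut (FreeGroup (Fin n))}
    (h1 : ∀ (f : FreeGroup (Fin n) →* B33) (x : FreeGroup (Fin n)), f (ψ x) = f x) :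
    PP ψ ∧ ((∀ a b c : Fin n, a < b → b < c → Phi a b c ψ = 0) → ψ ∈ Nt n) := by
  have hn' : 5 ≤ Fintype.card (Fin n) := by rw [Fintype.card_fin]; exact hn
  let π : MulAut (FreeGroup (Fin n)) →* MulAut (FreeGroup (Fin n)) ⧸ Nt n :=
    QuotientGroup.mk' (Nt n)
  have hπ : ∀ g, π g = 1 ↔ g ∈ Nt n := fun g => QuotientGroup.eq_one_iff g
  let W : SP (Fin n) →* MulAut (FreeGroup (Fin n)) ⧸ Nt n := π.comp toAut
  let E : Lt (Fin n) → Lt (Fin n) → MulAut (FreeGroup (Fin n)) ⧸ Nt n := fun x a => π (eAut x a)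
  have R : Rel W E := rel_map rel_aut π
  have cb : ∀ x a : Lt (Fin n), E x a * E x a * E x a = 1 := by
    intro x a
    show π (eAut x a) * π (eAut x a) * π (eAut x a) = 1
    rw [← map_mul, ← map_mul, hπ]
    exact Subgroup.subset_normalClosure ⟨x, a, rfl⟩
  have gen : ∀ q, q ∈ Subgroup.closure
      (Set.range W ∪ {q | ∃ x a : Lt (Fin n), x.1 ≠ a.1 ∧ q = E x a}) := by
    intro q
    obtain ⟨φ, rfl⟩ := QuotientGroup.mk'_surjective (Nt n) q
    have h1 := nielsen_generation φ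
    have h2 := Subgroup.mem_map_of_mem π h1
    rw [MonoidHom.map_closure] at h2
    refine Subgroup.closure_mono ?_ h2
    rintro _ ⟨φ, hφ, rfl⟩
    rcases hφ with ⟨σ, rfl⟩ | ⟨x, a, hxa, rfl⟩
    · exact Or.inl ⟨σ, rfl⟩
    · exact Or.inr ⟨x, a, hxa, rfl⟩
  have hNn := NF_normal R cb hn' gen
  have hN3 : N3 (Fin n) ≤ (NF E).comap π := by
    have : ((NF E).comap π).Normal := hNn.comap π
    unfold N3
    apply Subgroup.normalClosure_le_normal
    rintro _ (⟨x, a, rfl⟩ | ⟨p, a, b, c, g1, g2, g3, g4, g5, g6, rfl⟩)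
    · show π (eAut x a * eAut x a * eAut x a) ∈ NF E
      rw [(hπ _).2 (Subgroup.subset_normalClosure ⟨x, a, rfl⟩)]
      exact one_mem _
    · show π (FF eAut p a b c) ∈ NF E
      rw [← FF_map]
      exact NF_mem p a b c g1 g2 g3 g4 g5 g6
  have hψ : π ψ ∈ NF E :=
    hN3 (core3 hn' (ρ := fun i : Fin n => (i : ℕ)) Fin.val_injective h1)
  have hout : ∀ t : Tri n, ∃ p : Fin n, p ≠ t.1.1 ∧ p ≠ t.1.2.1 ∧ p ≠ t.1.2.2 := by
    intro t
    obtain ⟨m, m1, m2, m3, _⟩ := fresh hn' (t.1.1, true) (t.1.2.1, true) (t.1.2.2, true)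
      (t.1.1, true)
    exact ⟨m.1, m1, m2, m3⟩
  choose p p1 p2 p3 using hout
  have hcE : ∀ p i j k : Fin n, π (cT p i j k) = FF E (p, true) (i, true) (j, true) (k, true) :=
    fun p i j k => (FF_map π eAut _ _ _ _).symm
  have key := dual_elim π (NF E) (fun u hu v hv => (NF_commute R cb hn' u hu v hv).eq)
    (NF_cube R cb hn') (fun t : Tri n => cT (p t) t.1.1 t.1.2.1 t.1.2.2)
    (by
      refine NF_le R cb hn' _ fun i j k hij hjk => ?_
      let t : Tri n := ⟨(i, j, k), hij, hjk⟩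
      refine ⟨p t, p1 t, p2 t, p3 t, ?_⟩
      rw [← hcE]
      exact Subgroup.subset_closure ⟨t, rfl⟩)
    (by
      intro t
      have h12 : t.1.1 ≠ t.1.2.1 := ne_of_lt t.2.1
      have h13 : t.1.1 ≠ t.1.2.2 := ne_of_lt (t.2.1.trans t.2.2)
      have h23 : t.1.2.1 ≠ t.1.2.2 := ne_of_lt t.2.2
      rw [hcE]
      exact NF_mem _ _ _ _ (p1 t) (p2 t) (p3 t) h12 h13 h23)
    (PPg (Fin n)) (fun t => Phi t.1.1 t.1.2.1 t.1.2.2)
    (fun t a ha b hb => Phi_mul _ _ _ ha hb)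
    (fun a ha => (Nt_le_P0 hn ((hπ a).1 ha)).1)
    (fun t a ha => Phi_P0 _ _ _ (Nt_le_P0 hn ((hπ a).1 ha)))
    (fun t => (Phi_tri (p1 t) (p2 t) (p3 t) t.2.1 t.2.2 t.2.1 t.2.2
      (cT_p (p1 t) (p2 t) (p3 t)) (fun l hl => cT_fix hl)).1)
    (by
      intro s t
      rw [(Phi_tri (p1 t) (p2 t) (p3 t) t.2.1 t.2.2 s.2.1 s.2.2
        (cT_p (p1 t) (p2 t) (p3 t)) (fun l hl => cT_fix hl)).2]
      by_cases h : t = s
      · subst h
        rw [if_pos ⟨rfl, rfl, rfl⟩, if_pos rfl]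
      · rw [if_neg h, if_neg]
        rintro ⟨e1, e2, e3⟩
        exact h (Subtype.ext (Prod.ext e1 (Prod.ext e2 e3))))
    ψ hψ
  exact ⟨key.1, fun h => (hπ ψ).1 (key.2 fun t => h _ _ _ t.2.1 t.2.2)⟩

end Pool.Agent.Y62.CT
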